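import Mathlib

/-!
# Ordered abelian groups with free archimedean components
-/

namespace LTree

variable {Λ : Type*} [AddCommGroup Λ] [LinearOrder Λ] [IsOrderedAddMonoid Λ]

/-- The convex subgroup generated by `x`. -/
def hullC (x : Λ) : Submodule ℤ Λ where
  carrier := {y | ∃ n : ℕ, |y| ≤ n • |x|}
  add_mem' := by
    rintro a b ⟨n, hn⟩ ⟨m, hm⟩
    refine ⟨n + m, ?_⟩
    rw [add_smul]
    exact (abs_add_le a b).trans (add_le_add hn hm)
  zero_mem' := ⟨0, by simp⟩
  smul_mem' := by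
    rintro c a ⟨n, hn⟩
    refine ⟨c.natAbs * n, ?_⟩
    have : |c • a| = c.natAbs • |a| := by
      rw [abs_zsmul]
      rw [← natCast_zsmul]
      simp
    rw [this, mul_smul]
    exact nsmul_le_nsmul_right hn _

/-- The convex subgroup of the elements infinitesimal with respect to `x`. -/
def infC (x : Λ) : Submodule ℤ Λ where
  carrier := {y | ∀ n : ℕ, n • |y| ≤ |x|}
  add_mem' := by
    intro a b ha hb n
    have h1 := ha (2 * n)
    have h2 := hb (2 * n)
    have h3 : n • |a + b| ≤ n • |a| + n • |b| := by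
      rw [← smul_add]; exact nsmul_le_nsmul_right (abs_add_le a b) n
    have e1 : (2 * n) • |a| = n • |a| + n • |a| := by rw [two_mul, add_smul]
    have e2 : (2 * n) • |b| = n • |b| + n • |b| := by rw [two_mul, add_smul]
    rw [e1] at h1
    rw [e2] at h2
    have n1 : 0 ≤ n • |a| := nsmul_nonneg (abs_nonneg a) n
    have n2 : 0 ≤ n • |b| := nsmul_nonneg (abs_nonneg b) n
    generalize n • |a + b| = u at *
    generalize n • |a| = v at *
    generalize n • |b| = w at *
    grind
  zero_mem' := by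
    intro n; simp
  smul_mem' := by
    intro c a ha n
    have : |c • a| = c.natAbs • |a| := by
      rw [abs_zsmul]
      rw [← natCast_zsmul]
      simp
    rw [this, ← mul_smul]
    exact ha _

/-- The archimedean component of `x`: the quotient of the convex subgroup generated by `x` by the
subgroup of the elements infinitesimal with respect to `x`. -/
def component (x : Λ) : Submodule ℤ (Λ ⧸ infC x) := (hullC x).map (infC x).mkQ

lemma self_mem_hullC (x : Λ) : x ∈ hullC x := ⟨1, by simp⟩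

lemma self_not_mem_infC {x : Λ} (hx : x ≠ 0) : x ∉ infC x := by
  intro h
  have := h 2
  rw [two_smul] at this
  have h2 : 0 < |x| := abs_pos.2 hx
  grind

lemma hullC_convex {x y z : Λ} (hy : y ∈ hullC x) (h : |z| ≤ |y|) : z ∈ hullC x := by
  obtain ⟨n, hn⟩ := hy
  exact ⟨n, h.trans hn⟩

lemma infC_convex {x y z : Λ} (hy : y ∈ infC x) (h : |z| ≤ |y|) : z ∈ infC x := by
  intro n
  exact (nsmul_le_nsmul_right h n).trans (hy n)

lemma hullC_le_of_mem {x y : Λ} (h : y ∈ hullC x) : hullC y ≤ hullC x := by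
  rintro z ⟨n, hn⟩
  exact hullC_convex ((hullC x).smul_mem (n : ℤ) h) (by
    rw [abs_zsmul]; simpa using hn)

lemma hullC_le_infC_of_mem {x y : Λ} (h : y ∈ infC x) : hullC y ≤ infC x := by
  rintro z ⟨n, hn⟩
  exact infC_convex ((infC x).smul_mem (n : ℤ) h) (by
    rw [abs_zsmul]; simpa using hn)

lemma mem_infC_of_not_mem {x y : Λ} (h : x ∉ hullC y) : y ∈ infC x := by
  intro n
  by_contra hc
  push Not at hc
  exact h ⟨n, hc.le⟩

lemma infC_le_hullC (x : Λ) : infC x ≤ hullC x := by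
  intro y hy
  exact ⟨1, by simpa using hy 1⟩

lemma half_mem_hullC {x z : Λ} (h : (2 : ℤ) • z ∈ hullC x) : z ∈ hullC x := by
  apply hullC_convex h
  rw [abs_zsmul]
  have := abs_nonneg z
  have e : |(2 : ℤ)| • |z| = |z| + |z| := by
    rw [show |(2 : ℤ)| = 2 by rfl, two_zsmul]
  rw [e]; grind

section free

variable {C : Type*} [AddCommGroup C]

/-- A subgroup `B` of a free abelian group which is generated modulo `2 B` by finitely many
elements is finitely generated. -/
theorem fg_of_mod_two [Module.Free ℤ C] (B : Submodule ℤ C) (R : Finset C)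
    (hR : ∀ y ∈ B, ∃ r ∈ R, ∃ z ∈ B, y = r + (2 : ℤ) • z) : B.FG := by
  classical
  let b := Module.Free.chooseBasis ℤ C
  let I : Finset (Module.Free.ChooseBasisIndex ℤ C) := R.biUnion (fun r => (b.repr r).support)
  have hr : ∀ r ∈ R, ∀ i ∉ I, b.repr r i = 0 := by
    intro r hr i hi
    by_contra h
    exact hi (Finset.mem_biUnion.2 ⟨r, hr, Finsupp.mem_support_iff.2 h⟩)
  have hdiv : ∀ n : ℕ, ∀ y ∈ B, ∀ i ∉ I, (2 : ℤ) ^ n ∣ b.repr y i := by
    intro n
    induction n with
    | zero => intro y _ i _; simp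
    | succ n ih =>
      intro y hy i hi
      obtain ⟨r, hr', z, hz, rfl⟩ := hR y hy
      obtain ⟨c, hc⟩ := ih z hz i hi
      refine ⟨c, ?_⟩
      rw [map_add, map_smul, Finsupp.add_apply, Finsupp.smul_apply, hr r hr' i hi, hc]
      simp only [smul_eq_mul]; ring
  have hzero : ∀ y ∈ B, ∀ i ∉ I, b.repr y i = 0 := by
    intro y hy i hi
    by_contra h
    have h1 : ∀ n : ℕ, (2 : ℤ) ^ n ≤ |b.repr y i| := fun n => by
      have := Int.le_of_dvd (abs_pos.2 h) ((dvd_abs _ _).2 (hdiv n y hy i hi))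
      exact this
    obtain ⟨n, hn⟩ : ∃ n : ℕ, |b.repr y i| < (2 : ℤ) ^ n := by
      refine ⟨(b.repr y i).natAbs, ?_⟩
      have h2 : (b.repr y i).natAbs < 2 ^ (b.repr y i).natAbs := Nat.lt_two_pow_self
      have h3 : |b.repr y i| = ((b.repr y i).natAbs : ℤ) := (Int.natCast_natAbs _).symm
      rw [h3]; exact_mod_cast h2
    exact absurd (h1 n) (not_le.2 hn)
  have hle : B ≤ Submodule.span ℤ (b '' (I : Set _)) := by
    intro y hy
    rw [← b.linearCombination_repr y, Finsupp.linearCombination_apply, Finsupp.sum]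
    refine Submodule.sum_mem _ (fun i hi => Submodule.smul_mem _ _ (Submodule.subset_span ?_))
    refine ⟨i, ?_, rfl⟩
    by_contra hI
    exact (Finsupp.mem_support_iff.1 hi) (hzero y hy i hI)
  have hfg : (Submodule.span ℤ (b '' (I : Set _))).FG :=
    ⟨I.image b, by rw [Finset.coe_image]⟩
  have : IsNoetherian ℤ (Submodule.span ℤ (b '' (I : Set _))) :=
    isNoetherian_of_fg_of_noetherian _ hfg
  exact (isNoetherian_submodule.1 this) B hle

end free

/-- **Algebraic criterion.** -/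
theorem fg_of_components (hfree : ∀ x : Λ, x ≠ 0 → Module.Free ℤ (component x))
    (L : Submodule ℤ Λ) (R : Finset Λ)
    (hR : ∀ y ∈ L, ∃ r ∈ R, ∃ z ∈ L, y = r + (2 : ℤ) • z) : L.FG := by
  classical
  -- representatives inside convex subgroups
  have hrep : ∀ x : Λ, ∃ R' : Finset Λ, ∀ y ∈ L ⊓ hullC x, ∃ r ∈ R', r ∈ L ⊓ hullC x ∧
      ∃ z ∈ L ⊓ hullC x, y = r + (2 : ℤ) • z := by
    intro x
    -- for each `r ∈ R` choose, if possible, an element of `L ⊓ hullC x` congruent to `r`
    let c : Λ → Λ := fun r =>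
      if h : ∃ y ∈ L ⊓ hullC x, ∃ z ∈ L, y = r + (2 : ℤ) • z then h.choose else 0
    refine ⟨R.image c, ?_⟩
    intro y hy
    obtain ⟨r, hr, z, hz, e⟩ := hR y hy.1
    have h : ∃ y ∈ L ⊓ hullC x, ∃ z ∈ L, y = r + (2 : ℤ) • z := ⟨y, hy, z, hz, e⟩
    have hc : c r = h.choose := dif_pos h
    obtain ⟨h1, z', hz', e'⟩ := h.choose_spec
    rw [← hc] at h1 e'
    refine ⟨c r, Finset.mem_image_of_mem c hr, h1, z - z', ?_, ?_⟩
    · refine ⟨L.sub_mem hz hz', half_mem_hullC ?_⟩
      have : (2 : ℤ) • (z - z') = y - c r := by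
        rw [e, e']; rw [smul_sub]; abel
      rw [this]
      exact (hullC x).sub_mem hy.2 h1.2
    · rw [e, e', smul_sub]; abel
  -- the images in the components are finitely generated
  have hcomp : ∀ x : Λ, x ≠ 0 → ((L ⊓ hullC x).map (infC x).mkQ).FG := by
    intro x hx
    have := hfree x hx
    obtain ⟨R', hR'⟩ := hrep x
    have hle : (L ⊓ hullC x).map (infC x).mkQ ≤ component x :=
      Submodule.map_mono inf_le_right
    let B : Submodule ℤ (component x) :=
      ((L ⊓ hullC x).map (infC x).mkQ).comap (component x).subtype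
    have hB : B.map (component x).subtype = (L ⊓ hullC x).map (infC x).mkQ := by
      rw [Submodule.map_comap_subtype, inf_eq_right.2 hle]
    rw [← hB]
    apply Submodule.FG.map
    let f : Λ → component x := fun r =>
      if h : (infC x).mkQ r ∈ component x then ⟨_, h⟩ else 0
    apply fg_of_mod_two B (R'.image f)
    rintro ⟨y, hy⟩ hyB
    obtain ⟨y', hy', e⟩ : ∃ y' ∈ L ⊓ hullC x, (infC x).mkQ y' = y := hyB
    obtain ⟨r, hr, hrL, z, hz, e'⟩ := hR' y' hy'
    have hr' : (infC x).mkQ r ∈ component x := ⟨r, hrL.2, rfl⟩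
    have hz' : (infC x).mkQ z ∈ component x := ⟨z, hz.2, rfl⟩
    refine ⟨f r, Finset.mem_image_of_mem f hr, ⟨_, hz'⟩, ⟨z, hz, rfl⟩, ?_⟩
    have hf : f r = ⟨_, hr'⟩ := dif_pos hr'
    rw [hf]
    apply Subtype.ext
    change y = (infC x).mkQ r + (2 : ℤ) • (infC x).mkQ z
    rw [← e, e', map_add, map_smul]
  -- finitely many convex subgroups
  let W : Set (Submodule ℤ Λ) := {V | ∃ x ∈ L, x ≠ 0 ∧ V = L ⊓ hullC x}
  have hchoice : ∀ x : Λ, x ∈ L → x ≠ 0 → ∃ y ∈ L ⊓ hullC x,
      ¬ ∃ z ∈ L ⊓ hullC x, ∃ e ∈ infC x, y = (2 : ℤ) • z + e := by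
    intro x hxL hx
    by_contra hcon
    push Not at hcon
    -- the component would be divisible by 2
    have := hfree x hx
    obtain ⟨S, hS⟩ := hcomp x hx
    have hfg : ((L ⊓ hullC x).map (infC x).mkQ).FG := hcomp x hx
    have hle : (L ⊓ hullC x).map (infC x).mkQ ≤ component x :=
      Submodule.map_mono inf_le_right
    have hdiv : ∀ v ∈ (L ⊓ hullC x).map (infC x).mkQ,
        ∃ w ∈ (L ⊓ hullC x).map (infC x).mkQ, v = (2 : ℤ) • w := by
      rintro _ ⟨y, hy, rfl⟩
      obtain ⟨z, hz, e, he, h⟩ := hcon y hy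
      refine ⟨_, ⟨z, hz, rfl⟩, ?_⟩
      rw [h, map_add, map_smul]
      have : (infC x).mkQ e = 0 := by simpa using he
      rw [this, add_zero]
    let b := Module.Free.chooseBasis ℤ (component x)
    have hv : ∀ n : ℕ, ∀ v : component x, (v : Λ ⧸ infC x) ∈ (L ⊓ hullC x).map (infC x).mkQ →
        ∀ i, (2 : ℤ) ^ n ∣ b.repr v i := by
      intro n
      induction n with
      | zero => intro v _ i; simp
      | succ n ih =>
        intro v hvm i
        obtain ⟨w, hw, e⟩ := hdiv _ hvm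
        obtain ⟨c, hc⟩ := ih ⟨w, hle hw⟩ hw i
        have : v = (2 : ℤ) • (⟨w, hle hw⟩ : component x) := Subtype.ext e
        refine ⟨c, ?_⟩
        rw [this, map_smul, Finsupp.smul_apply, hc]
        simp only [smul_eq_mul]; ring
    have hxm : (infC x).mkQ x ∈ (L ⊓ hullC x).map (infC x).mkQ :=
      ⟨x, ⟨hxL, self_mem_hullC x⟩, rfl⟩
    have hx0 : b.repr (⟨_, hle hxm⟩ : component x) = 0 := by
      ext i
      by_contra h
      have h1 : ∀ n : ℕ, (2 : ℤ) ^ n ≤ |b.repr (⟨_, hle hxm⟩ : component x) i| := fun n => by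
        exact Int.le_of_dvd (abs_pos.2 h) ((dvd_abs _ _).2 (hv n _ hxm i))
      have h2 : (b.repr (⟨_, hle hxm⟩ : component x) i).natAbs <
          2 ^ (b.repr (⟨_, hle hxm⟩ : component x) i).natAbs := Nat.lt_two_pow_self
      have h3 := h1 (b.repr (⟨_, hle hxm⟩ : component x) i).natAbs
      rw [← Int.natCast_natAbs] at h3
      have : (2 : ℕ) ^ (b.repr (⟨_, hle hxm⟩ : component x) i).natAbs ≤
          (b.repr (⟨_, hle hxm⟩ : component x) i).natAbs := by exact_mod_cast h3
      omega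
    have hx1 : (⟨_, hle hxm⟩ : component x) = 0 := by
      exact (LinearEquiv.map_eq_zero_iff b.repr).1 hx0
    have hx2 : (infC x).mkQ x = 0 := congrArg Subtype.val hx1
    exact self_not_mem_infC hx (by simpa using hx2)
  have hWfin : W.Finite := by
    -- choose representatives
    have hsel : ∀ V : W, ∃ p : Λ × Λ, p.1 ∈ L ∧ p.1 ≠ 0 ∧ V.1 = L ⊓ hullC p.1 ∧
        p.2 ∈ L ⊓ hullC p.1 ∧
        ¬ ∃ z ∈ L ⊓ hullC p.1, ∃ e ∈ infC p.1, p.2 = (2 : ℤ) • z + e := by
      rintro ⟨V, x, hxL, hx, rfl⟩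
      obtain ⟨y, hy, hy'⟩ := hchoice x hxL hx
      exact ⟨(x, y), hxL, hx, rfl, hy, hy'⟩
    choose p hp using hsel
    -- class in `R`
    have hcl : ∀ V : W, ∃ r : R, ∃ z ∈ L, (p V).2 = r + (2 : ℤ) • z := by
      intro V
      obtain ⟨r, hr, z, hz, e⟩ := hR (p V).2 (hp V).2.2.2.1.1
      exact ⟨⟨r, hr⟩, z, hz, e⟩
    choose r hr using hcl
    have hinj : Function.Injective r := by
      intro V V' hVV
      by_contra hne
      obtain ⟨z, hz, e⟩ := hr V
      obtain ⟨z', hz', e'⟩ := hr V'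
      rw [hVV] at e
      -- comparability
      have main : ∀ V V' : W, (p V).1 ∉ hullC (p V').1 → ∀ z ∈ L, ∀ z' ∈ L, ∀ s : Λ,
          (p V).2 = s + (2 : ℤ) • z → (p V').2 = s + (2 : ℤ) • z' → False := by
        intro V V' hn z hz z' hz' s e e'
        have h1 : (p V').1 ∈ infC (p V).1 := mem_infC_of_not_mem hn
        have h2 : (p V').2 ∈ infC (p V).1 := hullC_le_infC_of_mem h1 (hp V').2.2.2.1.2
        have e2 : (p V).2 = (2 : ℤ) • (z - z') + (p V').2 := by
          rw [e, e', smul_sub]; abel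
        refine (hp V).2.2.2.2 ⟨z - z', ⟨L.sub_mem hz hz', half_mem_hullC ?_⟩, (p V').2, h2, e2⟩
        have : (2 : ℤ) • (z - z') = (p V).2 - (p V').2 := by rw [e2]; abel
        rw [this]
        exact (hullC _).sub_mem (hp V).2.2.2.1.2 (infC_le_hullC _ h2)
      by_cases c1 : (p V).1 ∈ hullC (p V').1
      · by_cases c2 : (p V').1 ∈ hullC (p V).1
        · apply hne
          apply Subtype.ext
          rw [(hp V).2.2.1, (hp V').2.2.1]
          congr 1
          exact le_antisymm (hullC_le_of_mem c1) (hullC_le_of_mem c2)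
        · exact main V' V c2 z' hz' z hz _ e' e
      · exact main V V' c1 z hz z' hz' _ e e'
    have : Finite W := Finite.of_injective r hinj
    exact Set.toFinite W
  -- each member of `W` is finitely generated
  have hWfg : ∀ V ∈ W, V.FG := by
    by_contra hcon
    push Not at hcon
    obtain ⟨V, hVW, hV⟩ := hcon
    obtain ⟨V0, hV0, hmin⟩ := Set.Finite.exists_minimal
      (s := {V | V ∈ W ∧ ¬ V.FG}) (hWfin.subset (fun V h => h.1)) ⟨V, hVW, hV⟩
    obtain ⟨⟨x, hxL, hx, rfl⟩, hnfg⟩ := hV0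
    apply hnfg
    apply Submodule.fg_of_fg_map_of_fg_inf_ker (infC x).mkQ (hcomp x hx)
    have hker : (L ⊓ hullC x) ⊓ LinearMap.ker (infC x).mkQ = L ⊓ infC x := by
      rw [Submodule.ker_mkQ]
      ext y
      constructor
      · rintro ⟨⟨a, b⟩, c⟩; exact ⟨a, c⟩
      · rintro ⟨a, b⟩; exact ⟨⟨a, infC_le_hullC _ b⟩, b⟩
    rw [hker]
    let W' : Set (Submodule ℤ Λ) := {V | V ∈ W ∧ V ≤ L ⊓ infC x}
    have hW'fin : W'.Finite := hWfin.subset (fun V h => h.1)
    have hW'fg : ∀ V ∈ W', V.FG := by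
      intro V hV
      by_contra hn
      have h1 : V ≤ L ⊓ hullC x := hV.2.trans (inf_le_inf_left _ (infC_le_hullC x))
      have h2 := hmin ⟨hV.1, hn⟩ h1
      have h3 : x ∈ L ⊓ infC x := hV.2 (h2 ⟨hxL, self_mem_hullC x⟩)
      exact self_not_mem_infC hx h3.2
    have hsup : L ⊓ infC x = sSup W' := by
      apply le_antisymm
      · intro y hy
        by_cases hy0 : y = 0
        · rw [hy0]; exact Submodule.zero_mem _
        · have : L ⊓ hullC y ∈ W' := ⟨⟨y, hy.1, hy0, rfl⟩,
            inf_le_inf_left _ (hullC_le_infC_of_mem hy.2)⟩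
          exact (le_sSup this) ⟨hy.1, self_mem_hullC y⟩
      · exact sSup_le (fun V hV => hV.2)
    rw [hsup, sSup_eq_iSup]
    rw [← hW'fin.coe_toFinset]
    have := Submodule.fg_biSup hW'fin.toFinset (fun V => V) (fun V hV =>
      hW'fg V (hW'fin.mem_toFinset.1 hV))
    simpa using this
  have hsup : L = sSup W := by
    apply le_antisymm
    · intro y hy
      by_cases hy0 : y = 0
      · rw [hy0]; exact Submodule.zero_mem _
      · have : L ⊓ hullC y ∈ W := ⟨y, hy, hy0, rfl⟩
        exact (le_sSup this) ⟨hy, self_mem_hullC y⟩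
    · refine sSup_le ?_
      rintro V ⟨x, hxL, hx, rfl⟩
      exact inf_le_left
  rw [hsup, sSup_eq_iSup, ← hWfin.coe_toFinset]
  have := Submodule.fg_biSup hWfin.toFinset (fun V => V) (fun V hV =>
      hWfg V (hWfin.mem_toFinset.1 hV))
  simpa using this

/-- A subgroup of a free component group generated modulo 2 by `T` is free of rank at most
the number of elements of `T`. -/
theorem fg_of_gen (hfree : ∀ x : Λ, x ≠ 0 → Module.Free ℤ (component x))
    (L : Submodule ℤ Λ) (T : Finset Λ) (hTL : ∀ t ∈ T, t ∈ L)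
    (h : ∀ y ∈ L, ∃ t ∈ Submodule.span ℤ (T : Set Λ), ∃ z ∈ L, y = t + (2 : ℤ) • z) :
    L.FG ∧ Module.finrank ℤ L ≤ T.card := by
  classical
  have hfg : L.FG := by
    apply fg_of_components hfree L (T.powerset.image (fun I => ∑ t ∈ I, t))
    intro y hy
    obtain ⟨t, ht, z, hz, rfl⟩ := h y hy
    obtain ⟨c, -, rfl⟩ := Submodule.mem_span_finset.1 ht
    refine ⟨∑ s ∈ T.filter (fun s => c s % 2 = 1), s, ?_, ∑ s ∈ T, (c s / 2) • s + z, ?_, ?_⟩
    · exact Finset.mem_image.2 ⟨_, Finset.mem_powerset.2 (Finset.filter_subset _ _), rfl⟩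
    · exact L.add_mem (L.sum_mem (fun s hs => L.smul_mem _ (hTL s hs))) hz
    · rw [smul_add, Finset.smul_sum, ← add_assoc, Finset.sum_filter, ← Finset.sum_add_distrib]
      congr 1
      refine Finset.sum_congr rfl (fun s _ => ?_)
      rcases Int.emod_two_eq_zero_or_one (c s) with e | e
      · rw [if_neg (by omega), zero_add, smul_smul]
        congr 1; omega
      · rw [if_pos e, smul_smul]
        have e2 : c s = 1 + 2 * (c s / 2) := by omega
        calc c s • s = (1 + 2 * (c s / 2)) • s := by rw [← e2]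
          _ = s + (2 * (c s / 2)) • s := by rw [add_zsmul, one_zsmul]
  refine ⟨hfg, ?_⟩
  have : Module.Finite ℤ L := Module.Finite.iff_fg.2 hfg
  let n := Module.finrank ℤ L
  let b : Module.Basis (Fin n) ℤ L := Module.finBasis ℤ L
  let φ : L → (Fin n → ZMod 2) := fun y i => ((b.repr y i : ℤ) : ZMod 2)
  have hφa : ∀ y z, φ (y + z) = φ y + φ z := by
    intro y z; ext i; simp [φ]
  have hφs : ∀ (c : ℤ) y, φ (c • y) = ((c : ZMod 2)) • φ y := by
    intro c y; ext i; simp [φ]
  have hspan : Submodule.span (ZMod 2) ((T.attach.image (fun t => φ ⟨t.1, hTL t.1 t.2⟩) :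
      Finset (Fin n → ZMod 2)) : Set (Fin n → ZMod 2)) = ⊤ := by
    rw [eq_top_iff]
    intro v _
    -- `v` is the image of an element of `L`
    obtain ⟨y, hy⟩ : ∃ y : L, φ y = v := by
      refine ⟨b.repr.symm (Finsupp.equivFunOnFinite.symm (fun i => ((v i).val : ℤ))), ?_⟩
      ext i
      simp [φ]
    obtain ⟨t, ht, z, hz, e⟩ := h y y.2
    obtain ⟨c, -, rfl⟩ := Submodule.mem_span_finset.1 ht
    have e' : y = ∑ s : T, c s.1 • (⟨s.1, hTL s.1 s.2⟩ : L) + (2 : ℤ) • (⟨z, hz⟩ : L) := by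
      apply Subtype.ext
      rw [e]
      push_cast
      congr 1
      rw [← Finset.sum_coe_sort T (fun s => c s • s)]
    have hφ0 : φ 0 = 0 := by ext i; simp [φ]
    have hφsum : ∀ (S : Finset T) (g : T → L), φ (∑ s ∈ S, g s) = ∑ s ∈ S, φ (g s) := by
      intro S g
      induction S using Finset.induction_on with
      | empty => simp [hφ0]
      | insert a S ha ih => rw [Finset.sum_insert ha, Finset.sum_insert ha, hφa, ih]
    rw [← hy, e', hφa, hφs, hφsum]
    have h2 : (((2 : ℤ)) : ZMod 2) = 0 := by decide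
    rw [h2, zero_smul, add_zero]
    refine Submodule.sum_mem _ (fun s _ => ?_)
    rw [hφs]
    refine Submodule.smul_mem _ _ (Submodule.subset_span ?_)
    rw [Finset.mem_coe, Finset.mem_image]
    exact ⟨s, Finset.mem_attach _ _, rfl⟩
  have h1 := finrank_span_finset_le_card (R := ZMod 2)
    (T.attach.image (fun t => φ ⟨t.1, hTL t.1 t.2⟩))
  have h2 : Module.finrank (ZMod 2) (Fin n → ZMod 2) = n := by simp
  have h3 : (Set.finrank (ZMod 2) ((T.attach.image (fun t => φ ⟨t.1, hTL t.1 t.2⟩) :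
      Finset (Fin n → ZMod 2)) : Set (Fin n → ZMod 2))) = n := by
    rw [Set.finrank, hspan, finrank_top, h2]
  rw [h3] at h1
  exact h1.trans (Finset.card_image_le.trans (by simp))

end LTree
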