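import Pool.Agent.Work.MP_0c526b_al.Basic

/-!
# Free actions without inversions: axes
-/

namespace LTree

variable {Λ : Type*} [AddCommGroup Λ] [LinearOrder Λ] [IsOrderedAddMonoid Λ] {X : Type*}

variable {D : Dist Λ X} (hT : IsTree D)

include hT in
lemma dir {r c w z : X} (h : Btw D r c w) (h' : ¬ Btw D r c z) : Btw D z c w := by
  have f1 := four_point hT r w z c
  have f2 := four_point hT r z w c
  have f3 := four_point hT z w r c
  have t1 := D.tri r c z
  have t2 := D.tri z c w
  have t3 := D.tri r c w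
  have s1 := D.symm r c
  have s2 := D.symm z c
  have s3 := D.symm w c
  have s4 := D.symm z w
  have s5 := D.symm z r
  have s6 := D.symm w r
  have h'' : D.d r c + D.d c z ≠ D.d r z := h'
  unfold Btw at *
  grind

include hT in
lemma lg {p q r s : X} (h1 : Btw D p q r) (h2 : Btw D q r s) (h3 : q ≠ r) :
    D.d p s = D.d p q + D.d q r + D.d r s := by
  have n1 : 0 < D.d q r := lt_of_le_of_ne (D.nonneg _ _) (fun h => h3 (D.eq_of_d _ _ h.symm))
  have f1 := four_point hT p r q s
  have t1 := D.tri p q s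
  have s1 := D.symm q r
  have s2 := D.symm q p
  have s3 := D.symm r p
  have s4 := D.symm s r
  unfold Btw at *
  grind

include hT in
lemma lg_btw {p q r s : X} (h1 : Btw D p q r) (h2 : Btw D q r s) (h3 : q ≠ r) :
    Btw D p q s ∧ Btw D p r s := by
  have h := lg hT h1 h2 h3
  unfold Btw at *
  constructor <;> grind

lemma btw_trans {x m p y : X} (h1 : Btw D x m y) (h2 : Btw D m p y) :
    Btw D x p y ∧ Btw D x m p := by
  have t1 := D.tri x m p
  have t2 := D.tri x p y
  unfold Btw at *
  constructor <;> grind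

lemma btw_trans' {x m p y : X} (h1 : Btw D x m y) (h2 : Btw D x p m) :
    Btw D x p y ∧ Btw D p m y := by
  have t1 := D.tri p m y
  have t2 := D.tri x p y
  unfold Btw at *
  constructor <;> grind

/-- `G` acts on `X` by isometries, freely and without inversions. -/
structure FreeAct (D : Dist Λ X) (G : Type*) [Group G] [MulAction G X] : Prop where
  iso : ∀ (g : G) (x y : X), D.d (g • x) (g • y) = D.d x y
  free : ∀ (g : G) (x : X), g • x = x → g = 1
  noinv : ∀ g : G, ¬ ((∀ x : X, g • x ≠ x) ∧ ∃ x : X, (g ^ 2) • x = x)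

variable {G : Type*} [Group G] [MulAction G X] (hG : FreeAct D G)

include hG

lemma FreeAct.ne {g : G} (hg : g ≠ 1) (x : X) : g • x ≠ x := fun h => hg (hG.free g x h)

lemma FreeAct.ne2 {g : G} (hg : g ≠ 1) (x : X) : g • g • x ≠ x := by
  intro h
  refine hG.noinv g ⟨fun y => hG.ne hg y, x, ?_⟩
  rw [pow_two, mul_smul]; exact h

lemma FreeAct.btw (g : G) {x m y : X} (h : Btw D x m y) : Btw D (g • x) (g • m) (g • y) := by
  unfold Btw at *
  rw [hG.iso, hG.iso, hG.iso]; exact h

lemma FreeAct.btw_iff (g : G) {x m y : X} : Btw D (g • x) (g • m) (g • y) ↔ Btw D x m y := by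
  unfold Btw at *
  rw [hG.iso, hG.iso, hG.iso]

/-- The axis of `g`. -/
def axis (D : Dist Λ X) (g : G) : Set X :=
  {p | D.d p (g • g • p) = D.d p (g • p) + D.d p (g • p)}

include hT

/-- Projection of a point to the axis. -/
lemma exists_proj {g : G} (hg : g ≠ 1) (x : X) :
    ∃ p, Btw D (g⁻¹ • x) p x ∧ Btw D x p (g • x) ∧ Btw D (g⁻¹ • x) p (g • x) ∧
      p ∈ axis D g ∧ D.d x (g • x) = D.d p (g • p) + (D.d x p + D.d x p) ∧
      Btw D p (g • p) (g • x) := by
  obtain ⟨p, h1, h2, h3⟩ := exists_median hT (g⁻¹ • x) x (g • x)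
  have e1 : D.d (g⁻¹ • x) x = D.d x (g • x) := by
    have := hG.iso g (g⁻¹ • x) x
    rw [smul_inv_smul] at this; exact this.symm
  have e2 : D.d (g⁻¹ • x) (g • x) = D.d x (g • g • x) := by
    have := hG.iso g (g⁻¹ • x) (g • x)
    rw [smul_inv_smul] at this; exact this.symm
  have e3 : Btw D x (g • p) (g • x) := by
    have := hG.btw g h1
    rwa [smul_inv_smul] at this
  have e4 := btw_dist hT h2 e3
  have e5 : D.d x (g • p) = D.d (g⁻¹ • x) p := by
    have := hG.iso g (g⁻¹ • x) p
    rw [smul_inv_smul] at this; exact this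
  have s1 := D.symm p x
  -- two cases
  by_cases hc : D.d x p ≤ D.d x (g • p)
  · have b1 : Btw D x p (g • p) := by
      unfold Btw at *; grind
    have b2 : Btw D p (g • p) (g • x) := by
      unfold Btw at *; grind
    have b3 : D.d x (g • x) = D.d p (g • p) + (D.d x p + D.d x p) := by
      unfold Btw at *; grind
    refine ⟨p, h1, h2, h3, ?_, b3, b2⟩
    have t1 := D.tri x p (g • g • x)
    have t2 := D.tri p (g • p) (g • g • x)
    have t2' := D.tri p (g • g • p) (g • g • x)
    have t3 := D.tri p (g • p) (g • g • p)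
    have i1 := hG.iso g p (g • p)
    have i2 := hG.iso g p (g • x)
    have i3 := hG.iso g (g • p) (g • x)
    have i4 := hG.iso g p x
    have n1 := D.nonneg p (g • p)
    unfold Btw at *
    change D.d p (g • g • p) = D.d p (g • p) + D.d p (g • p)
    grind
  · exfalso
    -- `p` and `g g p` are at the same distance from `g x` on the common part
    have b3 : Btw D (g • x) (g • g • p) (g • g • x) := by
      have := hG.btw g e3
      exact this
    have d1 : D.d (g • x) (g • g • p) = D.d (g • x) p := by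
      have i1 := hG.iso g x (g • p)
      have i2 := D.symm (g • x) p
      unfold Btw at *; grind
    obtain ⟨m, m1, m2, m3⟩ := exists_median hT (g • x) x (g • g • x)
    have b4 : Btw D (g • x) p x := h2.symm
    have i3 := hG.iso g x (g • x)
    have i4 := hG.iso g x p
    have s2 := D.symm (g • x) x
    have s3 := D.symm (g • x) p
    have s4 := D.symm (g • x) m
    have s5 := D.symm x m
    have dm : D.d (g • x) p ≤ D.d (g • x) m := by
      unfold Btw at *; grind
    have c1 : Btw D (g • x) p m := by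
      have := btw_dist hT b4 m1
      unfold Btw at *; grind
    have c2 : Btw D (g • x) (g • g • p) m := by
      have := btw_dist hT b3 m3
      unfold Btw at *; grind
    have := btw_unique hT c2 c1 d1
    exact hG.ne2 hg p this

/-- Points on the axis have least displacement. -/
lemma axis_min {g : G} {p : X} (hp : p ∈ axis D g) (y : X) : D.d p (g • p) ≤ D.d y (g • y) := by
  have hp' : D.d p (g • g • p) = D.d p (g • p) + D.d p (g • p) := hp
  have i1 := hG.iso g p (g • p)
  have i2 := hG.iso g y (g • y)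
  have i3 := hG.iso g y p
  have i4 := hG.iso g y (g • p)
  -- use the points p, g p, g g p and y' = g y
  have f1 := four_point hT (g • y) (g • p) p (g • g • p)
  have f2 := four_point hT y (g • y) p (g • p)
  have f3 := four_point hT y (g • p) p (g • y)
  have t1 := D.tri y (g • y) p
  have t2 := D.tri y (g • y) (g • p)
  have t3 := D.tri p y (g • p)
  have t4 := D.tri p (g • y) (g • p)
  have t5 := D.tri (g • y) y (g • p)
  have t6 := D.tri (g • y) (g • p) p
  have t7 := D.tri y (g • p) p
  have t8 := D.tri y p (g • p)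
  have s1 := D.symm (g • y) y
  have s2 := D.symm (g • p) p
  have s3 := D.symm (g • y) p
  have s4 := D.symm p y
  have s5 := D.symm (g • y) (g • p)
  have s6 := D.symm (g • p) y
  have n1 := D.nonneg p (g • p)
  grind

lemma mem_axis_iff {g : G} (hg : g ≠ 1) {p : X} (hp : p ∈ axis D g) (y : X) :
    y ∈ axis D g ↔ D.d y (g • y) = D.d p (g • p) := by
  constructor
  · intro hy
    exact le_antisymm (axis_min hT hG hy p) (axis_min hT hG hp y)
  · intro e
    obtain ⟨q, -, -, -, hq, e', -⟩ := exists_proj hT hG hg y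
    have h1 := axis_min hT hG hp q
    have h2 := D.nonneg y q
    have : D.d y q = 0 := by grind
    rw [D.eq_of_d _ _ this]; exact hq

lemma axis_nonempty {g : G} (hg : g ≠ 1) [Nonempty X] : ∃ p, p ∈ axis D g := by
  obtain ⟨q, -, -, -, hq, -⟩ := exists_proj hT hG hg (Classical.arbitrary X)
  exact ⟨q, hq⟩

/-- Gate property. -/
lemma gate {g : G} (hg : g ≠ 1) {r c : X} (hc : c ∈ axis D g)
    (e : D.d r (g • r) = D.d c (g • c) + (D.d r c + D.d r c)) {z : X} (hz : z ∈ axis D g) :
    Btw D r c z := by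
  by_contra hn
  have hcc : D.d c (g • g • c) = D.d c (g • c) + D.d c (g • c) := hc
  have ng : c ≠ g • c := fun h => hG.ne hg c h.symm
  -- r, c, g c, g r on a geodesic
  have i1 := hG.iso g r c
  have i2 := hG.iso g c (g • c)
  have t1 := D.tri r c (g • r)
  have t2 := D.tri c (g • c) (g • r)
  have t3 := D.tri r (g • c) (g • r)
  have t4 := D.tri r c (g • c)
  have s1 := D.symm (g • c) (g • r)
  have s2 := D.symm (g • r) (g • c)
  have b1 : Btw D r c (g • c) := by unfold Btw; grind
  have b2 : Btw D c (g • c) (g • r) := by unfold Btw; grind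
  have b2' : Btw D (g⁻¹ • c) c r := by
    have := (hG.btw_iff g⁻¹ (x := c) (m := g • c) (y := g • r)).2 b2
    simpa using this
  have b3 : Btw D z c (g • c) := dir hT b1 hn
  have b4 : Btw D z c (g⁻¹ • c) := dir hT b2'.symm hn
  have b5 : Btw D (g • z) (g • c) c := by
    have := hG.btw g b4
    simpa using this
  have l := lg hT b3 b5.symm ng
  have i3 := hG.iso g c z
  have e2 := (mem_axis_iff hT hG hg hc z).1 hz
  have n := D.nonneg z c
  have s3 := D.symm z c
  have : D.d z c = 0 := by grind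
  have hzc := D.eq_of_d _ _ this
  exact hn (by rw [hzc]; exact btw_right _ _)

lemma axis_convex {g : G} (hg : g ≠ 1) {p q r : X} (hp : p ∈ axis D g) (hq : q ∈ axis D g)
    (h : Btw D p r q) : r ∈ axis D g := by
  obtain ⟨c, -, -, -, hc, e, -⟩ := exists_proj hT hG hg r
  have b1 := gate hT hG hg hc e hp
  have b2 := gate hT hG hg hc e hq
  have t := D.tri p c q
  have s1 := D.symm p r
  have s2 := D.symm c p
  have n := D.nonneg r c
  have : D.d r c = 0 := by unfold Btw at *; grind
  rw [D.eq_of_d _ _ this]; exact hc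

omit hT hG in
/-- Linear sets: of any three points one is between the others. -/
def Linear (D : Dist Λ X) (Y : Set X) : Prop :=
  ∀ x ∈ Y, ∀ y ∈ Y, ∀ z ∈ Y, Btw D x y z ∨ Btw D y z x ∨ Btw D z x y

omit hT in
lemma smul_mem_axis {g : G} (h : G) {p : X} (hp : p ∈ axis D g) :
    h • p ∈ axis D (h * g * h⁻¹) := by
  have hp' : D.d p (g • g • p) = D.d p (g • p) + D.d p (g • p) := hp
  change D.d _ _ = D.d _ _ + D.d _ _
  simp only [mul_smul, inv_smul_smul]
  rw [hG.iso, hG.iso]; exact hp'

omit hT in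
lemma smul_mem_axis_self {g : G} {p : X} (hp : p ∈ axis D g) : g • p ∈ axis D g := by
  have := smul_mem_axis hG g hp
  simpa using this

omit hT in
lemma inv_smul_mem_axis_self {g : G} {p : X} (hp : p ∈ axis D g) : g⁻¹ • p ∈ axis D g := by
  have := smul_mem_axis hG g⁻¹ hp
  simpa using this

lemma axis_linear {g : G} (hg : g ≠ 1) : Linear D (axis D g) := by
  intro x hx y hy z hz
  obtain ⟨m, m1, m2, m3⟩ := exists_median hT x y z
  -- `m1 : x m y`, `m2 : y m z`, `m3 : x m z`
  by_cases ex : m = x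
  · right; right; rw [← ex]; exact m2.symm
  by_cases ey : m = y
  · left; rw [← ey]; exact m3
  by_cases ez : m = z
  · right; left; rw [← ez]; exact m1.symm
  exfalso
  have hm : m ∈ axis D g := axis_convex hT hG hg hx hy m1
  have hmm : D.d m (g • g • m) = D.d m (g • m) + D.d m (g • m) := hm
  have ng : m ≠ g • m := fun h => hG.ne hg m h.symm
  have i1 := hG.iso g m (g • m)
  have b0 : Btw D m (g • m) (g • g • m) := by unfold Btw; grind
  have b1 : Btw D (g⁻¹ • m) m (g • m) := by
    have := (hG.btw_iff g⁻¹ (x := m) (m := g • m) (y := g • g • m)).2 b0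
    simpa using this
  -- a point `w` of the axis with both `m ∈ [w, g m]` and `m ∈ [w, g⁻¹ m]` is `m`
  have key : ∀ w ∈ axis D g, Btw D w m (g • m) → Btw D w m (g⁻¹ • m) → w = m := by
    intro w hw c1 c2
    have c3 : Btw D (g • w) (g • m) m := by
      have := hG.btw g c2
      simpa using this
    have l := lg hT c1 c3.symm ng
    have e := (mem_axis_iff hT hG hg hm w).1 hw
    have i3 := hG.iso g m w
    have n := D.nonneg w m
    have s := D.symm w m
    have : D.d w m = 0 := by grind
    exact D.eq_of_d _ _ this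
  have kx : ¬ (Btw D x m (g • m) ∧ Btw D x m (g⁻¹ • m)) := fun h => ex (key x hx h.1 h.2).symm
  have ky : ¬ (Btw D y m (g • m) ∧ Btw D y m (g⁻¹ • m)) := fun h => ey (key y hy h.1 h.2).symm
  have kz : ¬ (Btw D z m (g • m) ∧ Btw D z m (g⁻¹ • m)) := fun h => ez (key z hz h.1 h.2).symm
  -- if `m ∉ [x, w]` then `m ∈ [w, y]` and `m ∈ [w, z]`
  have u1 : ∀ w, ¬ Btw D x m w → Btw D y m w ∧ Btw D z m w := fun w h =>
    ⟨(dir hT m1 h).symm, (dir hT m3 h).symm⟩
  have u2 : ∀ w, ¬ Btw D y m w → Btw D x m w ∧ Btw D z m w := fun w h =>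
    ⟨(dir hT m1.symm h).symm, (dir hT m2 h).symm⟩
  have u3 : ∀ w, ¬ Btw D z m w → Btw D x m w ∧ Btw D y m w := fun w h =>
    ⟨(dir hT m3.symm h).symm, (dir hT m2.symm h).symm⟩
  by_cases a1 : Btw D x m (g • m)
  · have a2 : ¬ Btw D x m (g⁻¹ • m) := fun h => kx ⟨a1, h⟩
    obtain ⟨a3, a4⟩ := u1 _ a2
    have a5 : ¬ Btw D y m (g • m) := fun h => ky ⟨h, a3⟩
    have a6 : ¬ Btw D z m (g • m) := fun h => kz ⟨h, a4⟩
    exact a6 (u2 _ a5).2
  · obtain ⟨a3, a4⟩ := u1 _ a1
    have a5 : ¬ Btw D y m (g⁻¹ • m) := fun h => ky ⟨a3, h⟩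
    have a6 : ¬ Btw D z m (g⁻¹ • m) := fun h => kz ⟨a4, h⟩
    exact a6 (u2 _ a5).2

/-- The axes of commuting elements coincide. -/
lemma axis_comm {a b : G} (ha : a ≠ 1) (hb : b ≠ 1) (hab : a * b = b * a) :
    axis D a ⊆ axis D b := by
  intro p hp
  have hb1 : b • p ∈ axis D a := by
    have := smul_mem_axis hG b hp
    have e : b * a * b⁻¹ = a := by rw [← hab]; group
    rwa [e] at this
  have hb2 : b⁻¹ • p ∈ axis D a := by
    have := smul_mem_axis hG b⁻¹ hp
    have e : b⁻¹ * a * b⁻¹⁻¹ = a := by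
      rw [inv_inv, mul_assoc, hab]; group
    rwa [e] at this
  have i1 := hG.iso b (b⁻¹ • p) p
  have i2 := hG.iso b (b⁻¹ • p) (b • p)
  rw [smul_inv_smul] at i1 i2
  have n2 := hG.ne2 hb p
  have n2' : b⁻¹ • p ≠ b • p := by
    intro h
    apply n2
    have := congrArg (fun t => b • t) h
    simpa using this.symm
  have n3 : D.d (b⁻¹ • p) (b • p) ≠ 0 := fun h => n2' (D.eq_of_d _ _ h)
  have s1 := D.symm (b⁻¹ • p) (b • p)
  have s2 := D.symm (b⁻¹ • p) p
  have s3 := D.symm (b • p) p
  have hl := axis_linear hT hG ha _ hb2 _ hp _ hb1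
  change D.d p (b • b • p) = D.d p (b • p) + D.d p (b • p)
  unfold Btw at hl
  have n := D.nonneg (b⁻¹ • p) (b • p)
  grind

lemma axis_comm_eq {a b : G} (ha : a ≠ 1) (hb : b ≠ 1) (hab : a * b = b * a) :
    axis D a = axis D b :=
  Set.Subset.antisymm (axis_comm hT hG ha hb hab) (axis_comm hT hG hb ha hab.symm)

end LTree
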