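import Mathlib

/-!
# Trees over ordered abelian groups: definitions and first facts
-/

namespace LTree

variable {Λ : Type*} [AddCommGroup Λ] [LinearOrder Λ] [IsOrderedAddMonoid Λ] {X : Type*}

/-- A metric on `X` with values in the ordered abelian group `Λ`. -/
structure Dist (Λ : Type*) [AddCommGroup Λ] [LinearOrder Λ] [IsOrderedAddMonoid Λ]
    (X : Type*) where
  /-- the distance -/
  d : X → X → Λ
  d_self : ∀ x, d x x = 0
  eq_of_d : ∀ x y, d x y = 0 → x = y
  symm : ∀ x y, d x y = d y x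
  tri : ∀ x y z, d x z ≤ d x y + d y z

/-- `S` is a segment with end points `x` and `y`: the image of an isometric embedding of the
interval `[0, d x y]` of `Λ` sending `0` to `x` and `d x y` to `y`. -/
def IsSeg (D : Dist Λ X) (S : Set X) (x y : X) : Prop :=
  ∃ f : Λ → X, f 0 = x ∧ f (D.d x y) = y ∧
    (∀ s t, 0 ≤ s → s ≤ D.d x y → 0 ≤ t → t ≤ D.d x y → D.d (f s) (f t) = |s - t|) ∧
    S = f '' Set.Icc 0 (D.d x y)

/-- The axioms of a `Λ`-tree: any two points are joined by a segment; the intersection of two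
segments with a common end point is a segment; if two segments meet only in a common end point,
their union is a segment. -/
structure IsTree (D : Dist Λ X) : Prop where
  join : ∀ x y, ∃ S, IsSeg D S x y
  inter : ∀ x y z S T, IsSeg D S x y → IsSeg D T x z → ∃ u w, IsSeg D (S ∩ T) u w
  union : ∀ x y z S T, IsSeg D S x y → IsSeg D T x z → S ∩ T = {x} →
    ∃ u w, IsSeg D (S ∪ T) u w

/-- The point `m` lies between `x` and `y`. -/
def Btw (D : Dist Λ X) (x m y : X) : Prop := D.d x m + D.d m y = D.d x y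

variable (D : Dist Λ X)

lemma Dist.nonneg (x y : X) : 0 ≤ D.d x y := by
  have h1 := D.tri x y x
  have h2 := D.d_self x
  have h3 := D.symm x y
  grind

variable {D}

lemma Btw.symm {x m y : X} (h : Btw D x m y) : Btw D y m x := by
  unfold Btw at *
  have h1 := D.symm x m
  have h2 := D.symm m y
  have h3 := D.symm x y
  grind

lemma btw_left (x y : X) : Btw D x x y := by
  unfold Btw; rw [D.d_self]; simp

lemma btw_right (x y : X) : Btw D x y y := by
  unfold Btw; rw [D.d_self]; simp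

lemma IsSeg.rev {S : Set X} {x y : X} (h : IsSeg D S x y) : IsSeg D S y x := by
  obtain ⟨f, h0, h1, hf, hS⟩ := h
  have hs := D.symm x y
  have hn := D.nonneg x y
  refine ⟨fun t => f (D.d x y - t), ?_, ?_, ?_, ?_⟩
  · simpa using h1
  · simp [← hs, h0]
  · intro s t a b c e
    rw [hf _ _ (by grind) (by grind) (by grind) (by grind)]
    grind
  · rw [hS]
    ext p
    constructor
    · rintro ⟨t, ⟨h1, h2⟩, rfl⟩
      exact ⟨D.d x y - t, ⟨by grind, by grind⟩, by simp⟩
    · rintro ⟨t, ⟨h1, h2⟩, rfl⟩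
      exact ⟨D.d x y - t, ⟨by grind, by grind⟩, rfl⟩

lemma IsSeg.left_mem {S : Set X} {x y : X} (h : IsSeg D S x y) : x ∈ S := by
  obtain ⟨f, h0, h1, hf, hS⟩ := h
  rw [hS]
  exact ⟨0, ⟨le_refl _, D.nonneg x y⟩, h0⟩

lemma IsSeg.right_mem {S : Set X} {x y : X} (h : IsSeg D S x y) : y ∈ S := h.rev.left_mem

lemma IsSeg.dist_eq {S : Set X} {x y p q : X} (h : IsSeg D S x y) (hp : p ∈ S) (hq : q ∈ S) :
    D.d p q = |D.d x p - D.d x q| := by
  obtain ⟨f, h0, h1, hf, hS⟩ := h
  rw [hS] at hp hq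
  obtain ⟨s, ⟨s0, s1⟩, rfl⟩ := hp
  obtain ⟨t, ⟨t0, t1⟩, rfl⟩ := hq
  have hn := D.nonneg x y
  have e1 := hf 0 s (le_refl _) hn s0 s1
  have e2 := hf 0 t (le_refl _) hn t0 t1
  rw [h0] at e1 e2
  rw [hf s t s0 s1 t0 t1, e1, e2]
  grind

lemma IsSeg.le {S : Set X} {x y p : X} (h : IsSeg D S x y) (hp : p ∈ S) :
    D.d x p ≤ D.d x y := by
  obtain ⟨f, h0, h1, hf, hS⟩ := h
  rw [hS] at hp
  obtain ⟨s, ⟨s0, s1⟩, rfl⟩ := hp
  have hn := D.nonneg x y
  have e1 := hf 0 s (le_refl _) hn s0 s1
  rw [h0] at e1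
  rw [e1]
  grind

lemma IsSeg.btw {S : Set X} {x y p : X} (h : IsSeg D S x y) (hp : p ∈ S) : Btw D x p y := by
  have h1 := h.dist_eq hp h.right_mem
  have h2 := h.le hp
  unfold Btw
  grind

lemma IsSeg.exists_at {S : Set X} {x y : X} (h : IsSeg D S x y) {t : Λ} (h0 : 0 ≤ t)
    (h1 : t ≤ D.d x y) : ∃ p ∈ S, D.d x p = t := by
  obtain ⟨f, f0, f1, hf, hS⟩ := h
  refine ⟨f t, ?_, ?_⟩
  · rw [hS]; exact ⟨t, ⟨h0, h1⟩, rfl⟩
  · have := hf 0 t (le_refl _) (D.nonneg x y) h0 h1
    rw [f0] at this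
    rw [this]; grind

lemma IsSeg.eq_of_dist {S : Set X} {x y p q : X} (h : IsSeg D S x y) (hp : p ∈ S) (hq : q ∈ S)
    (e : D.d x p = D.d x q) : p = q := by
  apply D.eq_of_d
  rw [h.dist_eq hp hq, e]; simp

/-- If a segment from `u` to `w` contains `x, y` at distance `d u w`, then it is a segment with end
points `x` and `y`. -/
lemma IsSeg.reend {S : Set X} {u w x y : X} (h : IsSeg D S u w) (hx : x ∈ S) (hy : y ∈ S)
    (e : D.d u w ≤ D.d x y) : IsSeg D S x y := by
  have h1 := h.dist_eq hx hy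
  have h2 := h.le hx
  have h3 := h.le hy
  have h4 := D.nonneg u x
  have h5 := D.nonneg u y
  have h6 : D.d u x = 0 ∧ D.d u y = D.d u w ∨ D.d u y = 0 ∧ D.d u x = D.d u w := by grind
  rcases h6 with ⟨a, b⟩ | ⟨a, b⟩
  · have e1 : u = x := D.eq_of_d _ _ a
    have e2 : y = w := h.eq_of_dist hy h.right_mem b
    subst e1; subst e2; exact h
  · have e1 : u = y := D.eq_of_d _ _ a
    have e2 : x = w := h.eq_of_dist hx h.right_mem b
    subst e1; subst e2; exact h.rev

variable (hT : IsTree D)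

include hT

/-- Segments are unique. -/
lemma seg_unique {S T : Set X} {x y : X} (hS : IsSeg D S x y) (hT' : IsSeg D T x y) : S = T := by
  have key : ∀ {S T : Set X} {x y : X}, IsSeg D S x y → IsSeg D T x y → S ⊆ T := by
    intro S T x y hS hT' p hp
    obtain ⟨u, w, h⟩ := hT.inter x y y S T hS hT'
    have hx : x ∈ S ∩ T := ⟨hS.left_mem, hT'.left_mem⟩
    have hy : y ∈ S ∩ T := ⟨hS.right_mem, hT'.right_mem⟩
    have e1 := hS.dist_eq h.left_mem.1 h.right_mem.1
    have e2 := hS.le h.left_mem.1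
    have e3 := hS.le h.right_mem.1
    have e4 := D.nonneg x u
    have e5 := D.nonneg x w
    have h' : IsSeg D (S ∩ T) x y := h.reend hx hy (by grind)
    obtain ⟨q, hq, e⟩ := h'.exists_at (D.nonneg x p) (hS.le hp)
    have : q = p := hS.eq_of_dist hq.1 hp e
    rw [← this]; exact hq.2
  exact Set.Subset.antisymm (key hS hT') (key hT' hS)

/-- Points between `x` and `y` lie on the segment. -/
lemma mem_of_btw {S : Set X} {x y m : X} (hS : IsSeg D S x y) (hm : Btw D x m y) : m ∈ S := by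
  obtain ⟨S1, h1⟩ := hT.join m x
  obtain ⟨S2, h2⟩ := hT.join m y
  have hi : S1 ∩ S2 = {m} := by
    ext p
    constructor
    · rintro ⟨a, b⟩
      have b1 := h1.btw a
      have b2 := h2.btw b
      unfold Btw at *
      have t := D.tri x p y
      have n := D.nonneg m p
      have s1 := D.symm m x
      have s2 := D.symm p x
      have : D.d m p = 0 := by grind
      exact (D.eq_of_d _ _ this).symm
    · rintro rfl
      exact ⟨h1.left_mem, h2.left_mem⟩
  obtain ⟨u, w, hU⟩ := hT.union m x y S1 S2 h1 h2 hi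
  have hx : x ∈ S1 ∪ S2 := Or.inl h1.right_mem
  have hy : y ∈ S1 ∪ S2 := Or.inr h2.right_mem
  have s1 := D.symm m x
  have hn1 := D.nonneg x m
  have hn2 := D.nonneg m y
  have hle : D.d u w ≤ D.d x y := by
    unfold Btw at hm
    have hb : ∀ p ∈ S1, D.d m p ≤ D.d x m := fun p hp => by
      have := h1.le hp; grind
    have hc : ∀ p ∈ S2, D.d m p ≤ D.d m y := fun p hp => h2.le hp
    have sy := D.symm m u
    have t := D.tri u m w
    rcases hU.left_mem with hu | hu <;> rcases hU.right_mem with hw | hw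
    · have e := h1.dist_eq hu hw
      have a1 := hb _ hu
      have a2 := hb _ hw
      have n1 := D.nonneg m u
      have n2 := D.nonneg m w
      grind
    · have a1 := hb _ hu
      have a2 := hc _ hw
      grind
    · have a1 := hb _ hw
      have a2 := hc _ hu
      grind
    · have e := h2.dist_eq hu hw
      have a1 := hc _ hu
      have a2 := hc _ hw
      have n1 := D.nonneg m u
      have n2 := D.nonneg m w
      grind
  have hU' := hU.reend hx hy hle
  rw [seg_unique hT hS hU']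
  exact Or.inl h1.left_mem

lemma btw_dist {x y p q : X} (hp : Btw D x p y) (hq : Btw D x q y) :
    D.d p q = |D.d x p - D.d x q| := by
  obtain ⟨S, hS⟩ := hT.join x y
  exact hS.dist_eq (mem_of_btw hT hS hp) (mem_of_btw hT hS hq)

lemma btw_unique {x y p q : X} (hp : Btw D x p y) (hq : Btw D x q y) (e : D.d x p = D.d x q) :
    p = q := by
  apply D.eq_of_d
  rw [btw_dist hT hp hq, e]; simp

lemma exists_btw {x y : X} {t : Λ} (h0 : 0 ≤ t) (h1 : t ≤ D.d x y) :
    ∃ p, Btw D x p y ∧ D.d x p = t := by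
  obtain ⟨S, hS⟩ := hT.join x y
  obtain ⟨p, hp, e⟩ := hS.exists_at h0 h1
  exact ⟨p, hS.btw hp, e⟩

/-- Medians exist. -/
theorem exists_median (x y z : X) : ∃ m, Btw D x m y ∧ Btw D y m z ∧ Btw D x m z := by
  obtain ⟨S, hS⟩ := hT.join x y
  obtain ⟨T, hT'⟩ := hT.join x z
  have key : ∃ m, IsSeg D (S ∩ T) x m := by
    obtain ⟨u, w, h⟩ := hT.inter x y z S T hS hT'
    have hx : x ∈ S ∩ T := ⟨hS.left_mem, hT'.left_mem⟩
    have e1 := hS.dist_eq h.left_mem.1 h.right_mem.1
    have e2 := h.btw hx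
    unfold Btw at e2
    have s := D.symm u x
    have n1 := D.nonneg x u
    have n2 := D.nonneg x w
    have : D.d x u = 0 ∨ D.d x w = 0 := by grind
    rcases this with a | a
    · exact ⟨w, by rw [D.eq_of_d _ _ a]; exact h⟩
    · exact ⟨u, by rw [D.eq_of_d _ _ a]; exact h.rev⟩
  obtain ⟨m, hm⟩ := key
  have hmS := hS.btw hm.right_mem.1
  have hmT := hT'.btw hm.right_mem.2
  refine ⟨m, hmS, ?_, hmT⟩
  obtain ⟨S', hS'⟩ := hT.join m y
  obtain ⟨T', hT''⟩ := hT.join m z
  have hi : S' ∩ T' = {m} := by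
    ext p
    constructor
    · rintro ⟨a, b⟩
      have b1 := hS'.btw a
      have b2 := hT''.btw b
      have t1 := D.tri x m p
      have t2 := D.tri x p y
      have t3 := D.tri x p z
      have c1 : Btw D x p y := by unfold Btw at *; grind
      have c2 : Btw D x p z := by unfold Btw at *; grind
      have hp : p ∈ S ∩ T := ⟨mem_of_btw hT hS c1, mem_of_btw hT hT' c2⟩
      have l := hm.le hp
      have n := D.nonneg m p
      have : D.d m p = 0 := by unfold Btw at *; grind
      exact (D.eq_of_d _ _ this).symm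
    · rintro rfl
      exact ⟨hS'.left_mem, hT''.left_mem⟩
  obtain ⟨u, w, hU⟩ := hT.union m y z S' T' hS' hT'' hi
  have my : y ∈ S' ∪ T' := Or.inl hS'.right_mem
  have mz : z ∈ S' ∪ T' := Or.inr hT''.right_mem
  have mm : m ∈ S' ∪ T' := Or.inl hS'.left_mem
  have e1 := hU.dist_eq mm my
  have e2 := hU.dist_eq mm mz
  have e3 := hU.dist_eq my mz
  have sy := D.symm y m
  have sz := D.symm y z
  by_cases c : Btw D y m z
  · exact c
  · have c' : D.d y m + D.d m z ≠ D.d y z := c
    have : D.d m y + D.d y z = D.d m z ∨ D.d m z + D.d z y = D.d m y := by grind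
    rcases this with a | a
    · have : y ∈ S' ∩ T' := ⟨hS'.right_mem, mem_of_btw hT hT'' a⟩
      rw [hi] at this
      rw [this]; exact btw_left _ _
    · have : z ∈ S' ∩ T' := ⟨mem_of_btw hT hS' a, hT''.right_mem⟩
      rw [hi] at this
      rw [this]; exact btw_right _ _

/-- The four point condition. -/
theorem four_point (x y z w : X) :
    D.d x y + D.d z w ≤ max (D.d x z + D.d y w) (D.d x w + D.d y z) := by
  -- base point `w`
  obtain ⟨p, p1, p2, p3⟩ := exists_median hT w x z
  obtain ⟨q, q1, q2, q3⟩ := exists_median hT w z y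
  -- `p` on `[w,x]`, `[x,z]`, `[w,z]`; `q` on `[w,z]`, `[z,y]`, `[w,y]`
  have hpq := btw_dist hT p3 q1
  have t1 := D.tri x p y
  have t2 := D.tri p q y
  have t3 := D.tri x q y
  have t4 := D.tri x p q
  have s1 := D.symm w x
  have s2 := D.symm w y
  have s3 := D.symm w z
  have s4 := D.symm z y
  have s5 := D.symm x p
  have s6 := D.symm q y
  have s7 := D.symm z q
  unfold Btw at *
  grind

end LTree
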