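import Pool.Agent.Work.MP_0c526b_al.Sum

/-!
# The top archimedean quotient of an abelian subgroup is finitely generated
-/

namespace LTree

variable {Λ : Type*} [AddCommGroup Λ] [LinearOrder Λ] [IsOrderedAddMonoid Λ] {X : Type*}

variable {D : Dist Λ X} {G : Type*} [Group G] [MulAction G X]

/-- The translation length, computed at the point `x`. -/
def tl (D : Dist Λ X) (x : X) (g : G) : Λ := D.d x (g • g • x) - D.d x (g • x)

lemma tl_one (x : X) : tl D x (1 : G) = 0 := by
  unfold tl; simp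

lemma tl_eq (hT : IsTree D) (hG : FreeAct D G) {g : G} (hg : g ≠ 1) {p : X}
    (hp : p ∈ axis D g) (x : X) : tl D x g = D.d p (g • p) := by
  obtain ⟨c, -, -, -, hc, e, -⟩ := exists_proj hT hG hg x
  have hgc : g • c ∈ axis D g := smul_mem_axis_self hG hc
  have hggc : g • g • c ∈ axis D g := smul_mem_axis_self hG hgc
  have hc' : D.d c (g • g • c) = D.d c (g • c) + D.d c (g • c) := hc
  have b1 := gate hT hG hg hc e hggc
  -- gate of `g g x`
  have e' : D.d (g • g • x) (g • g • g • x) =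
      D.d (g • g • c) (g • g • g • c) + (D.d (g • g • x) (g • g • c) +
        D.d (g • g • x) (g • g • c)) := by
    rw [hG.iso, hG.iso, hG.iso, hG.iso, hG.iso, hG.iso]; exact e
  have b2 := gate hT hG hg (r := g • g • x) (c := g • g • c) hggc e' hc
  have hne : c ≠ g • g • c := fun h => hG.ne2 hg c h.symm
  have l := lg hT b1 b2.symm hne
  have i1 : D.d (g • g • x) (g • g • c) = D.d x c := by rw [hG.iso, hG.iso]
  have s1 := D.symm (g • g • x) (g • g • c)
  have m1 := (mem_axis_iff hT hG hg hp c).1 hc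
  unfold tl
  grind

/-- **Main theorem.** -/
theorem top_quotient (hT : IsTree D) (hG : FreeAct D G) (S : Finset G)
    (hS : Subgroup.closure (S : Set G) = ⊤) (x0 : X) {l : Λ} (hl : 0 < l)
    (hle : ∀ s ∈ S, D.d x0 (s • x0) ≤ l) (A : Subgroup G)
    (hA : ∀ a ∈ A, ∀ b ∈ A, a * b = b * a) :
    ∃ R : Finset G, (∀ r ∈ R, r ∈ A) ∧ ∀ b ∈ A, ∃ r ∈ Subgroup.closure (R : Set G),
      ∃ e ∈ A, b = r * e ∧ ∀ n : ℕ, n • tl D x0 e ≤ l := by
  classical
  -- displacements
  have hall : ∀ w : G, D.d x0 (w • x0) ∈ hullC l := by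
    intro w
    have hwc : w ∈ Subgroup.closure (S : Set G) := by rw [hS]; trivial
    induction hwc using Subgroup.closure_induction with
    | mem s hs =>
      apply hullC_convex (self_mem_hullC l)
      rw [abs_of_nonneg (D.nonneg _ _), abs_of_pos hl]
      exact hle s hs
    | one => rw [one_smul, D.d_self]; exact (hullC l).zero_mem
    | mul u v _ _ hu hv =>
      apply hullC_convex ((hullC l).add_mem hu hv)
      have t := D.tri x0 (u • x0) ((u * v) • x0)
      rw [mul_smul] at t ⊢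
      rw [hG.iso] at t
      have n1 := D.nonneg x0 (u • v • x0)
      grind
    | inv u _ hu =>
      have := hG.iso u x0 (u⁻¹ • x0)
      rw [smul_inv_smul] at this
      rw [← this, D.symm]; exact hu
  have tlmem : ∀ w : G, tl D x0 w ∈ hullC l := by
    intro w
    refine (hullC l).sub_mem ?_ (hall w)
    rw [← mul_smul]; exact hall _
  have tlnn : ∀ w : G, 0 ≤ tl D x0 w := by
    intro w
    by_cases hw : w = 1
    · rw [hw, tl_one]
    · obtain ⟨q, -, -, -, hq, -⟩ := exists_proj hT hG hw x0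
      rw [tl_eq hT hG hw hq]; exact D.nonneg _ _
  -- infinitesimal translation lengths
  have hinf : ∀ w : G, theta l (tl D x0 w) = 0 → ∀ n : ℕ, n • tl D x0 w ≤ l := by
    intro w hw n
    have := ((mem_infC_iff hl (tlmem w)).2 hw) n
    rwa [abs_of_nonneg (tlnn w), abs_of_pos hl] at this
  by_cases h1 : ∃ a ∈ A, a ≠ 1
  swap
  · push Not at h1
    refine ⟨∅, by simp, fun b hb => ⟨1, Subgroup.one_mem _, b, hb, by simp, ?_⟩⟩
    rw [h1 b hb, tl_one]
    intro n; simpa using hl.le
  obtain ⟨a, haA, ha⟩ := h1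
  obtain ⟨p, -, p2, -, hp, p3, -⟩ := exists_proj hT hG ha x0
  have hY := axis_linear hT hG ha
  have hq : a • p ∈ axis D a := smul_mem_axis_self hG hp
  have hpq : a • p ≠ p := hG.ne ha p
  have hx0p : D.d x0 p ∈ hullC l := by
    apply hullC_convex (hall a)
    have n1 := D.nonneg x0 p
    have n2 := D.nonneg p (a • x0)
    have n3 := D.nonneg x0 (a • x0)
    unfold Btw at p2
    grind
  have hstab : ∀ b ∈ A, b ∈ stab G (axis D a) := fun b hb => comm_mem_stab hG (hA a haA b hb)
  have hax : ∀ b ∈ A, b ≠ 1 → axis D b = axis D a := fun b hb hb1 =>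
    axis_comm_eq hT hG hb1 ha (hA b hb a haA)
  have htl : ∀ b ∈ A, tl D x0 b = D.d p (b • p) := by
    intro b hb
    by_cases hb1 : b = 1
    · rw [hb1, tl_one, one_smul, D.d_self]
    · exact tl_eq hT hG hb1 (by rw [hax b hb hb1]; exact hp) x0
  set κ := coord D p (a • p) with hκ
  have hκabs : ∀ b ∈ A, |κ (b • p)| = tl D x0 b := by
    intro b hb; rw [htl b hb]; exact abs_coord _ _ _
  have hκmem : ∀ b ∈ A, κ (b • p) ∈ hullC l := by
    intro b hb
    apply hullC_convex (tlmem b)
    rw [hκabs b hb]; exact le_abs_self _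
  have hκmul : ∀ b ∈ A, ∀ c ∈ A, κ ((b * c) • p) = κ (b • p) + κ (c • p) := by
    intro b hb c hc
    rw [mul_smul, hκ, coord_smul hT hG hY hp hq hpq (fun y hy => (hstab b hb y).2 hy)
      ((hstab c hc p).2 hp), add_comm]
  let ρ : A →* Multiplicative ℝ :=
    { toFun := fun b => Multiplicative.ofAdd (theta l (κ ((b : G) • p)))
      map_one' := by
        rw [Subgroup.coe_one, one_smul, hκ, coord_self, theta_zero hl]; rfl
      map_mul' := by
        intro b c
        rw [Subgroup.coe_mul, hκmul b b.2 c c.2, theta_add hl (hκmem b b.2) (hκmem c c.2)]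
        rfl }
  have hρabs : ∀ b : A, |(ρ b).toAdd| = theta l (tl D x0 (b : G)) := by
    intro b
    rw [← hκabs b b.2, theta_abs hl (hκmem b b.2)]; rfl
  -- it is enough that the image of `ρ` is finitely generated
  have hsuff : ∀ R : Finset A, (∀ b : A, ∃ r ∈ Subgroup.closure (R : Set A), ρ b = ρ r) →
      ∃ R : Finset G, (∀ r ∈ R, r ∈ A) ∧ ∀ b ∈ A, ∃ r ∈ Subgroup.closure (R : Set G),
        ∃ e ∈ A, b = r * e ∧ ∀ n : ℕ, n • tl D x0 e ≤ l := by
    intro R hR
    refine ⟨R.image (fun r : A => (r : G)), ?_, ?_⟩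
    · intro r hr
      obtain ⟨r', -, rfl⟩ := Finset.mem_image.1 hr
      exact r'.2
    · intro b hb
      obtain ⟨r, hr, e⟩ := hR ⟨b, hb⟩
      refine ⟨r, ?_, (r : G)⁻¹ * b, A.mul_mem (A.inv_mem r.2) hb, by group, ?_⟩
      · have := Subgroup.mem_map_of_mem A.subtype hr
        rw [MonoidHom.map_closure] at this
        rw [Finset.coe_image]; exact this
      · apply hinf
        have h2 : ρ (r⁻¹ * ⟨b, hb⟩) = 1 := by
          rw [map_mul, map_inv, e]; simp
        have h3 := hρabs (r⁻¹ * ⟨b, hb⟩)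
        rw [h2] at h3
        have h4 : ((r⁻¹ * ⟨b, hb⟩ : A) : G) = (r : G)⁻¹ * b := rfl
        rw [h4] at h3
        rw [← h3]; simp
  let Θ : AddSubgroup ℝ := Subgroup.toAddSubgroup' ρ.range
  have hΘ : ∀ t, t ∈ Θ ↔ ∃ b : A, (ρ b).toAdd = t := by
    intro t
    constructor
    · rintro ⟨b, hb⟩; exact ⟨b, by rw [hb]; rfl⟩
    · rintro ⟨b, hb⟩; exact ⟨b, by rw [← hb]; rfl⟩
  rcases AddSubgroup.dense_or_cyclic Θ with hd | ⟨t, ht⟩
  · -- dense: use the homomorphism
    have hdense : ∀ ε : ℝ, 0 < ε → ∃ m : G, m ≠ 1 ∧ a * m = m * a ∧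
        D.d p (m • p) ∈ hullC l ∧ theta l (D.d p (m • p)) < ε := by
      intro ε hε
      obtain ⟨t, ht, ht0, ht1⟩ : ∃ t ∈ Θ, 0 < t ∧ t < ε := by
        obtain ⟨t, ht1, ht2⟩ := hd.exists_between hε
        exact ⟨t, ht1, ht2.1, ht2.2⟩
      obtain ⟨m, hm⟩ := (hΘ t).1 ht
      refine ⟨m, ?_, hA a haA m m.2, ?_, ?_⟩
      · intro e
        have : m = 1 := Subtype.ext e
        rw [this, map_one] at hm
        have : t = 0 := hm.symm
        linarith
      · rw [← htl m m.2]; exact tlmem _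
      · rw [← htl m m.2, ← hρabs, hm, abs_of_pos ht0]; exact ht1
    have h : Setup D G a p l := ⟨hT, hG, ha, hp, hl, hdense⟩
    obtain ⟨ψ, hψ⟩ := h.exists_hom x0 hall hx0p
    -- the range of `ψ` is finitely generated
    have hψρ : ∀ b : A, ψ (b : G) = ρ b := by
      intro b
      apply Multiplicative.toAdd.injective
      exact hψ b (hstab b b.2)
    let P : Submodule ℤ ℝ := AddSubgroup.toIntSubmodule (Subgroup.toAddSubgroup' ψ.range)
    have hP : ∀ w, (ψ w).toAdd ∈ P := fun w => ⟨w, rfl⟩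
    have hPspan : P ≤ Submodule.span ℤ ((S.image (fun s => (ψ s).toAdd) : Finset ℝ) : Set ℝ) := by
      rintro _ ⟨w, rfl⟩
      have hwc : w ∈ Subgroup.closure (S : Set G) := by rw [hS]; trivial
      change (ψ w).toAdd ∈ _
      induction hwc using Subgroup.closure_induction with
      | mem s hs =>
        exact Submodule.subset_span (Finset.mem_coe.2 (Finset.mem_image_of_mem _ hs))
      | one => rw [map_one]; exact Submodule.zero_mem _
      | mul u v _ _ hu hv => rw [map_mul]; exact Submodule.add_mem _ hu hv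
      | inv u _ hu => rw [map_inv]; exact Submodule.neg_mem _ hu
    have hnoeth : IsNoetherian ℤ
        (Submodule.span ℤ ((S.image (fun s => (ψ s).toAdd) : Finset ℝ) : Set ℝ)) :=
      isNoetherian_of_fg_of_noetherian _ ⟨_, rfl⟩
    have hΘle : AddSubgroup.toIntSubmodule Θ ≤
        Submodule.span ℤ ((S.image (fun s => (ψ s).toAdd) : Finset ℝ) : Set ℝ) := by
      intro t ht
      obtain ⟨b, hb⟩ := (hΘ t).1 ht
      apply hPspan
      rw [← hb, ← hψρ]; exact hP _
    obtain ⟨U, hU⟩ := (isNoetherian_submodule.1 hnoeth) _ hΘle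
    have hU' : ∀ u : U, ∃ b : A, (ρ b).toAdd = (u : ℝ) := by
      intro u
      apply (hΘ _).1
      have : (u : ℝ) ∈ AddSubgroup.toIntSubmodule Θ := by
        rw [← hU]; exact Submodule.subset_span u.2
      exact this
    choose g hg using hU'
    refine hsuff (Finset.univ.image g) ?_
    intro b
    have hb : (ρ b).toAdd ∈ Submodule.span ℤ (U : Set ℝ) := by
      rw [hU]; exact (hΘ _).2 ⟨b, rfl⟩
    have key : ∀ t ∈ Submodule.span ℤ (U : Set ℝ),
        ∃ r ∈ Subgroup.closure ((Finset.univ.image g : Finset A) : Set A), (ρ r).toAdd = t := by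
      intro t ht
      induction ht using Submodule.span_induction with
      | mem u hu =>
        exact ⟨g ⟨u, hu⟩, Subgroup.subset_closure (Finset.mem_coe.2
          (Finset.mem_image_of_mem _ (Finset.mem_univ _))), hg ⟨u, hu⟩⟩
      | zero => exact ⟨1, Subgroup.one_mem _, by rw [map_one]; rfl⟩
      | add s t _ _ hs ht =>
        obtain ⟨r, hr, e⟩ := hs
        obtain ⟨r', hr', e'⟩ := ht
        exact ⟨r * r', Subgroup.mul_mem _ hr hr', by rw [map_mul, toAdd_mul, e, e']⟩
      | smul c t _ ht =>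
        obtain ⟨r, hr, e⟩ := ht
        exact ⟨r ^ c, Subgroup.zpow_mem _ hr c, by rw [map_zpow, toAdd_zpow, e]⟩
    obtain ⟨r, hr, e⟩ := key _ hb
    exact ⟨r, hr, Multiplicative.toAdd.injective e.symm⟩
  · -- cyclic
    have htΘ : t ∈ Θ := by rw [ht]; exact AddSubgroup.mem_closure_singleton_self t
    obtain ⟨b0, hb0⟩ := (hΘ t).1 htΘ
    refine hsuff {b0} ?_
    intro b
    have hb : (ρ b).toAdd ∈ AddSubgroup.closure {t} := by
      rw [← ht]; exact (hΘ _).2 ⟨b, rfl⟩
    obtain ⟨n, hn⟩ := AddSubgroup.mem_closure_singleton.1 hb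
    refine ⟨b0 ^ n, Subgroup.zpow_mem _ (Subgroup.subset_closure (by simp)) n, ?_⟩
    apply Multiplicative.toAdd.injective
    rw [map_zpow, toAdd_zpow, hb0, hn]

end LTree
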