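import Pool.Agent.Work.MP_0c526b_al.Idx.Final
import Pool.Agent.Work.MP_0c526b_al.TopMain

/-!
# Abelian subgroups when all archimedean components but the top one are free
-/

set_option autoImplicit false

namespace LTree

variable {Λ : Type*} [AddCommGroup Λ] [LinearOrder Λ] [IsOrderedAddMonoid Λ]

/-- The algebraic criterion, with a condition on the components of the elements of `L` only. -/
theorem fg_of_components' (L : Submodule ℤ Λ)
    (hfree : ∀ x ∈ L, x ≠ 0 → Module.Free ℤ (component x)) (R : Finset Λ)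
    (hR : ∀ y ∈ L, ∃ r ∈ R, ∃ z ∈ L, y = r + (2 : ℤ) • z) : L.FG := by
  classical
  -- representatives inside convex subgroups
  have hrep : ∀ x : Λ, ∃ R' : Finset Λ, ∀ y ∈ L ⊓ hullC x, ∃ r ∈ R', r ∈ L ⊓ hullC x ∧
      ∃ z ∈ L ⊓ hullC x, y = r + (2 : ℤ) • z := by
    intro x
    -- for each `r ∈ R` choose, if possible, an element of `L ⊓ hullC x` congruent to `r`
    let c : Λ → Λ := fun r =>
      if h : ∃ y ∈ L ⊓ hullC x, ∃ z ∈ L, y = r + (2 : ℤ) • z then h.choose else 0
    refine ⟨R.image c, ?_⟩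
    intro y hy
    obtain ⟨r, hr, z, hz, e⟩ := hR y hy.1
    have h : ∃ y ∈ L ⊓ hullC x, ∃ z ∈ L, y = r + (2 : ℤ) • z := ⟨y, hy, z, hz, e⟩
    have hc : c r = h.choose := dif_pos h
    obtain ⟨h1, z', hz', e'⟩ := h.choose_spec
    rw [← hc] at h1 e'
    refine ⟨c r, Finset.mem_image_of_mem c hr, h1, z - z', ?_, ?_⟩
    · refine ⟨L.sub_mem hz hz', half_mem_hullC ?_⟩
      have : (2 : ℤ) • (z - z') = y - c r := by
        rw [e, e']; rw [smul_sub]; abel
      rw [this]
      exact (hullC x).sub_mem hy.2 h1.2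
    · rw [e, e', smul_sub]; abel
  -- the images in the components are finitely generated
  have hcomp : ∀ x ∈ L, x ≠ 0 → ((L ⊓ hullC x).map (infC x).mkQ).FG := by
    intro x hxL hx
    have := hfree x hxL hx
    obtain ⟨R', hR'⟩ := hrep x
    have hle : (L ⊓ hullC x).map (infC x).mkQ ≤ component x :=
      Submodule.map_mono inf_le_right
    let B : Submodule ℤ (component x) :=
      ((L ⊓ hullC x).map (infC x).mkQ).comap (component x).subtype
    have hB : B.map (component x).subtype = (L ⊓ hullC x).map (infC x).mkQ := by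
      rw [Submodule.map_comap_subtype, inf_eq_right.2 hle]
    rw [← hB]
    apply Submodule.FG.map
    let f : Λ → component x := fun r =>
      if h : (infC x).mkQ r ∈ component x then ⟨_, h⟩ else 0
    apply fg_of_mod_two B (R'.image f)
    rintro ⟨y, hy⟩ hyB
    obtain ⟨y', hy', e⟩ : ∃ y' ∈ L ⊓ hullC x, (infC x).mkQ y' = y := hyB
    obtain ⟨r, hr, hrL, z, hz, e'⟩ := hR' y' hy'
    have hr' : (infC x).mkQ r ∈ component x := ⟨r, hrL.2, rfl⟩
    have hz' : (infC x).mkQ z ∈ component x := ⟨z, hz.2, rfl⟩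
    refine ⟨f r, Finset.mem_image_of_mem f hr, ⟨_, hz'⟩, ⟨z, hz, rfl⟩, ?_⟩
    have hf : f r = ⟨_, hr'⟩ := dif_pos hr'
    rw [hf]
    apply Subtype.ext
    change y = (infC x).mkQ r + (2 : ℤ) • (infC x).mkQ z
    rw [← e, e', map_add, map_smul]
  -- finitely many convex subgroups
  let W : Set (Submodule ℤ Λ) := {V | ∃ x ∈ L, x ≠ 0 ∧ V = L ⊓ hullC x}
  have hchoice : ∀ x : Λ, x ∈ L → x ≠ 0 → ∃ y ∈ L ⊓ hullC x,
      ¬ ∃ z ∈ L ⊓ hullC x, ∃ e ∈ infC x, y = (2 : ℤ) • z + e := by
    intro x hxL hx
    by_contra hcon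
    push Not at hcon
    -- the component would be divisible by 2
    have := hfree x hxL hx
    obtain ⟨S, hS⟩ := hcomp x hxL hx
    have hfg : ((L ⊓ hullC x).map (infC x).mkQ).FG := hcomp x hxL hx
    have hle : (L ⊓ hullC x).map (infC x).mkQ ≤ component x :=
      Submodule.map_mono inf_le_right
    have hdiv : ∀ v ∈ (L ⊓ hullC x).map (infC x).mkQ,
        ∃ w ∈ (L ⊓ hullC x).map (infC x).mkQ, v = (2 : ℤ) • w := by
      rintro _ ⟨y, hy, rfl⟩
      obtain ⟨z, hz, e, he, h⟩ := hcon y hy
      refine ⟨_, ⟨z, hz, rfl⟩, ?_⟩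
      rw [h, map_add, map_smul]
      have : (infC x).mkQ e = 0 := by simpa using he
      rw [this, add_zero]
    let b := Module.Free.chooseBasis ℤ (component x)
    have hv : ∀ n : ℕ, ∀ v : component x, (v : Λ ⧸ infC x) ∈ (L ⊓ hullC x).map (infC x).mkQ →
        ∀ i, (2 : ℤ) ^ n ∣ b.repr v i := by
      intro n
      induction n with
      | zero => intro v _ i; simp
      | succ n ih =>
        intro v hvm i
        obtain ⟨w, hw, e⟩ := hdiv _ hvm
        obtain ⟨c, hc⟩ := ih ⟨w, hle hw⟩ hw i
        have : v = (2 : ℤ) • (⟨w, hle hw⟩ : component x) := Subtype.ext e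
        refine ⟨c, ?_⟩
        rw [this, map_smul, Finsupp.smul_apply, hc]
        simp only [smul_eq_mul]; ring
    have hxm : (infC x).mkQ x ∈ (L ⊓ hullC x).map (infC x).mkQ :=
      ⟨x, ⟨hxL, self_mem_hullC x⟩, rfl⟩
    have hx0 : b.repr (⟨_, hle hxm⟩ : component x) = 0 := by
      ext i
      by_contra h
      have h1 : ∀ n : ℕ, (2 : ℤ) ^ n ≤ |b.repr (⟨_, hle hxm⟩ : component x) i| := fun n => by
        exact Int.le_of_dvd (abs_pos.2 h) ((dvd_abs _ _).2 (hv n _ hxm i))
      have h2 : (b.repr (⟨_, hle hxm⟩ : component x) i).natAbs <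
          2 ^ (b.repr (⟨_, hle hxm⟩ : component x) i).natAbs := Nat.lt_two_pow_self
      have h3 := h1 (b.repr (⟨_, hle hxm⟩ : component x) i).natAbs
      rw [← Int.natCast_natAbs] at h3
      have : (2 : ℕ) ^ (b.repr (⟨_, hle hxm⟩ : component x) i).natAbs ≤
          (b.repr (⟨_, hle hxm⟩ : component x) i).natAbs := by exact_mod_cast h3
      omega
    have hx1 : (⟨_, hle hxm⟩ : component x) = 0 := by
      exact (LinearEquiv.map_eq_zero_iff b.repr).1 hx0
    have hx2 : (infC x).mkQ x = 0 := congrArg Subtype.val hx1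
    exact self_not_mem_infC hx (by simpa using hx2)
  have hWfin : W.Finite := by
    -- choose representatives
    have hsel : ∀ V : W, ∃ p : Λ × Λ, p.1 ∈ L ∧ p.1 ≠ 0 ∧ V.1 = L ⊓ hullC p.1 ∧
        p.2 ∈ L ⊓ hullC p.1 ∧
        ¬ ∃ z ∈ L ⊓ hullC p.1, ∃ e ∈ infC p.1, p.2 = (2 : ℤ) • z + e := by
      rintro ⟨V, x, hxL, hx, rfl⟩
      obtain ⟨y, hy, hy'⟩ := hchoice x hxL hx
      exact ⟨(x, y), hxL, hx, rfl, hy, hy'⟩
    choose p hp using hsel
    -- class in `R`
    have hcl : ∀ V : W, ∃ r : R, ∃ z ∈ L, (p V).2 = r + (2 : ℤ) • z := by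
      intro V
      obtain ⟨r, hr, z, hz, e⟩ := hR (p V).2 (hp V).2.2.2.1.1
      exact ⟨⟨r, hr⟩, z, hz, e⟩
    choose r hr using hcl
    have hinj : Function.Injective r := by
      intro V V' hVV
      by_contra hne
      obtain ⟨z, hz, e⟩ := hr V
      obtain ⟨z', hz', e'⟩ := hr V'
      rw [hVV] at e
      -- comparability
      have main : ∀ V V' : W, (p V).1 ∉ hullC (p V').1 → ∀ z ∈ L, ∀ z' ∈ L, ∀ s : Λ,
          (p V).2 = s + (2 : ℤ) • z → (p V').2 = s + (2 : ℤ) • z' → False := by
        intro V V' hn z hz z' hz' s e e'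
        have h1 : (p V').1 ∈ infC (p V).1 := mem_infC_of_not_mem hn
        have h2 : (p V').2 ∈ infC (p V).1 := hullC_le_infC_of_mem h1 (hp V').2.2.2.1.2
        have e2 : (p V).2 = (2 : ℤ) • (z - z') + (p V').2 := by
          rw [e, e', smul_sub]; abel
        refine (hp V).2.2.2.2 ⟨z - z', ⟨L.sub_mem hz hz', half_mem_hullC ?_⟩, (p V').2, h2, e2⟩
        have : (2 : ℤ) • (z - z') = (p V).2 - (p V').2 := by rw [e2]; abel
        rw [this]
        exact (hullC _).sub_mem (hp V).2.2.2.1.2 (infC_le_hullC _ h2)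
      by_cases c1 : (p V).1 ∈ hullC (p V').1
      · by_cases c2 : (p V').1 ∈ hullC (p V).1
        · apply hne
          apply Subtype.ext
          rw [(hp V).2.2.1, (hp V').2.2.1]
          congr 1
          exact le_antisymm (hullC_le_of_mem c1) (hullC_le_of_mem c2)
        · exact main V' V c2 z' hz' z hz _ e' e
      · exact main V V' c1 z hz z' hz' _ e e'
    have : Finite W := Finite.of_injective r hinj
    exact Set.toFinite W
  -- each member of `W` is finitely generated
  have hWfg : ∀ V ∈ W, V.FG := by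
    by_contra hcon
    push Not at hcon
    obtain ⟨V, hVW, hV⟩ := hcon
    obtain ⟨V0, hV0, hmin⟩ := Set.Finite.exists_minimal
      (s := {V | V ∈ W ∧ ¬ V.FG}) (hWfin.subset (fun V h => h.1)) ⟨V, hVW, hV⟩
    obtain ⟨⟨x, hxL, hx, rfl⟩, hnfg⟩ := hV0
    apply hnfg
    apply Submodule.fg_of_fg_map_of_fg_inf_ker (infC x).mkQ (hcomp x hxL hx)
    have hker : (L ⊓ hullC x) ⊓ LinearMap.ker (infC x).mkQ = L ⊓ infC x := by
      rw [Submodule.ker_mkQ]
      ext y
      constructor
      · rintro ⟨⟨a, b⟩, c⟩; exact ⟨a, c⟩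
      · rintro ⟨a, b⟩; exact ⟨⟨a, infC_le_hullC _ b⟩, b⟩
    rw [hker]
    let W' : Set (Submodule ℤ Λ) := {V | V ∈ W ∧ V ≤ L ⊓ infC x}
    have hW'fin : W'.Finite := hWfin.subset (fun V h => h.1)
    have hW'fg : ∀ V ∈ W', V.FG := by
      intro V hV
      by_contra hn
      have h1 : V ≤ L ⊓ hullC x := hV.2.trans (inf_le_inf_left _ (infC_le_hullC x))
      have h2 := hmin ⟨hV.1, hn⟩ h1
      have h3 : x ∈ L ⊓ infC x := hV.2 (h2 ⟨hxL, self_mem_hullC x⟩)
      exact self_not_mem_infC hx h3.2
    have hsup : L ⊓ infC x = sSup W' := by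
      apply le_antisymm
      · intro y hy
        by_cases hy0 : y = 0
        · rw [hy0]; exact Submodule.zero_mem _
        · have : L ⊓ hullC y ∈ W' := ⟨⟨y, hy.1, hy0, rfl⟩,
            inf_le_inf_left _ (hullC_le_infC_of_mem hy.2)⟩
          exact (le_sSup this) ⟨hy.1, self_mem_hullC y⟩
      · exact sSup_le (fun V hV => hV.2)
    rw [hsup, sSup_eq_iSup]
    rw [← hW'fin.coe_toFinset]
    have := Submodule.fg_biSup hW'fin.toFinset (fun V => V) (fun V hV =>
      hW'fg V (hW'fin.mem_toFinset.1 hV))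
    simpa using this
  have hsup : L = sSup W := by
    apply le_antisymm
    · intro y hy
      by_cases hy0 : y = 0
      · rw [hy0]; exact Submodule.zero_mem _
      · have : L ⊓ hullC y ∈ W := ⟨y, hy, hy0, rfl⟩
        exact (le_sSup this) ⟨hy, self_mem_hullC y⟩
    · refine sSup_le ?_
      rintro V ⟨x, hxL, hx, rfl⟩
      exact inf_le_left
  rw [hsup, sSup_eq_iSup, ← hWfin.coe_toFinset]
  have := Submodule.fg_biSup hWfin.toFinset (fun V => V) (fun V hV =>
      hWfg V (hWfin.mem_toFinset.1 hV))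
  simpa using this

/-- A subgroup of finite rank is generated modulo 2 by finitely many elements. -/
theorem exists_mod_two (L : Submodule ℤ Λ) (r : ℕ)
    (hr : ∀ (n : ℕ) (v : Fin n → L), LinearIndependent ℤ v → n ≤ r) :
    ∃ R : Finset Λ, ∀ y ∈ L, ∃ s ∈ R, ∃ z ∈ L, y = s + (2 : ℤ) • z := by
  classical
  -- families independent modulo 2
  let P : Finset Λ → Prop := fun T => (∀ t ∈ T, t ∈ L) ∧
    ∀ c : Λ → ℤ, (∃ z ∈ L, ∑ t ∈ T, c t • t = (2 : ℤ) • z) → ∀ t ∈ T, (2 : ℤ) ∣ c t
  have htf : ∀ x : Λ, (2 : ℤ) • x = 0 → x = 0 := by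
    intro x hx
    rw [two_smul] at hx
    rcases lt_trichotomy x 0 with h | h | h
    · exact absurd hx (add_neg h h).ne
    · exact h
    · exact absurd hx (add_pos h h).ne'
  have hPcard : ∀ T, P T → T.card ≤ r := by
    intro T hT
    have hz : ∀ n : ℕ, ∀ c : Λ → ℤ, (∑ t ∈ T, (c t).natAbs ≤ n) → ∑ t ∈ T, c t • t = 0 →
        ∀ t ∈ T, c t = 0 := by
      intro n
      induction n using Nat.strong_induction_on with
      | _ n ih =>
        intro c hn hc
        have hev := hT.2 c ⟨0, L.zero_mem, by rw [hc, smul_zero]⟩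
        by_contra hcon
        push Not at hcon
        obtain ⟨t0, ht0, hne⟩ := hcon
        have h1 : ∀ t ∈ T, c t = 2 * (c t / 2) := fun t ht => by
          have := hev t ht; omega
        have h2 : ∑ t ∈ T, (c t / 2) • t = 0 := by
          apply htf
          rw [Finset.smul_sum, ← hc]
          refine Finset.sum_congr rfl fun t ht => ?_
          rw [smul_smul, ← h1 t ht]
        have h3 : ∑ t ∈ T, (c t / 2).natAbs < n := by
          refine lt_of_lt_of_le ?_ hn
          apply Finset.sum_lt_sum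
          · intro t ht
            have := h1 t ht; omega
          · refine ⟨t0, ht0, ?_⟩
            have := h1 t0 ht0; omega
        have h4 := ih _ h3 (fun t => c t / 2) le_rfl h2 t0 ht0
        have h5 := h1 t0 ht0
        apply hne
        have h6 : c t0 / 2 = 0 := h4
        rw [h5, h6, mul_zero]
    have hli : LinearIndependent ℤ (fun t : T => (⟨t.1, hT.1 t.1 t.2⟩ : L)) := by
      rw [Fintype.linearIndependent_iff]
      intro g hg i
      have h1 : ∑ t ∈ T, (if h : t ∈ T then g ⟨t, h⟩ else 0) • t = 0 := by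
        have h2 := congrArg Subtype.val hg
        rw [Submodule.coe_sum] at h2
        rw [← Finset.sum_coe_sort T]
        rw [Submodule.coe_zero] at h2
        rw [← h2]
        refine Finset.sum_congr rfl fun t _ => ?_
        rw [dif_pos t.2]
        rfl
      have h3 := hz _ _ le_rfl h1 i.1 i.2
      rwa [dif_pos i.2] at h3
    have e := Fintype.equivFin T
    have h5 := hr _ _ (hli.comp e.symm e.symm.injective)
    rwa [Fintype.card_coe] at h5
  set Q : ℕ → Prop := fun k => ∃ T, P T ∧ T.card = k with hQ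
  have h0 : P ∅ := ⟨by simp, by simp⟩
  obtain ⟨T, hT, hcard⟩ : Q (Nat.findGreatest Q r) :=
    Nat.findGreatest_spec (P := Q) (Nat.zero_le _) ⟨∅, h0, rfl⟩
  have hmax : ∀ T', P T' → T'.card ≤ T.card := by
    intro T' hT'
    rw [hcard]
    exact Nat.le_findGreatest (hPcard T' hT') ⟨T', hT', rfl⟩
  refine ⟨T.powerset.image (fun I => ∑ t ∈ I, t), ?_⟩
  intro y hy
  -- `y` is congruent to a combination of `T`
  have key : ∃ c : Λ → ℤ, ∃ z ∈ L, y = ∑ t ∈ T, c t • t + (2 : ℤ) • z := by
    by_cases hyT : y ∈ T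
    · refine ⟨fun t => if t = y then 1 else 0, 0, L.zero_mem, ?_⟩
      simp [hyT]
    · have hn : ¬ P (insert y T) := by
        intro h
        have := hmax _ h
        rw [Finset.card_insert_of_notMem hyT] at this
        omega
      have hn' : ∃ c : Λ → ℤ, (∃ z ∈ L, ∑ t ∈ insert y T, c t • t = (2 : ℤ) • z) ∧
          ∃ t ∈ insert y T, ¬ (2 : ℤ) ∣ c t := by
        by_contra hcon
        push Not at hcon
        apply hn
        refine ⟨?_, fun c hc t ht => hcon c hc t ht⟩
        intro t ht
        rcases Finset.mem_insert.1 ht with rfl | h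
        · exact hy
        · exact hT.1 t h
      obtain ⟨c, ⟨z, hz, hcz⟩, t1, ht1, hodd⟩ := hn'
      rw [Finset.sum_insert hyT] at hcz
      have hcy : c y % 2 = 1 := by
        rcases Int.emod_two_eq_zero_or_one (c y) with h | h
        · exfalso
          have h1 : c y = 2 * (c y / 2) := by omega
          have h2 : ∀ t ∈ T, (2 : ℤ) ∣ c t := by
            apply hT.2 c
            refine ⟨z - (c y / 2) • y, L.sub_mem hz (L.smul_mem _ hy), ?_⟩
            rw [smul_sub, smul_smul, ← h1, ← hcz]
            abel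
          rcases Finset.mem_insert.1 ht1 with rfl | h'
          · exact hodd (by omega)
          · exact hodd (h2 _ h')
        · exact h
      refine ⟨fun t => - c t, z - (c y / 2) • y, L.sub_mem hz (L.smul_mem _ hy), ?_⟩
      have h1 : c y = 2 * (c y / 2) + 1 := by omega
      have h2 : c y • y = (2 * (c y / 2)) • y + y := by
        conv_lhs => rw [h1, add_zsmul, one_zsmul]
      have h3 : ∑ t ∈ T, (- c t) • t = - ∑ t ∈ T, c t • t := by
        rw [← Finset.sum_neg_distrib]
        exact Finset.sum_congr rfl fun t _ => by rw [neg_smul]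
      rw [h3, smul_sub, smul_smul, ← hcz, h2]
      abel
  obtain ⟨c, z, hz, rfl⟩ := key
  refine ⟨∑ s ∈ T.filter (fun s => c s % 2 = 1), s, ?_, ∑ s ∈ T, (c s / 2) • s + z, ?_, ?_⟩
  · exact Finset.mem_image.2 ⟨_, Finset.mem_powerset.2 (Finset.filter_subset _ _), rfl⟩
  · exact L.add_mem (L.sum_mem (fun s hs => L.smul_mem _ (hT.1 s hs))) hz
  · rw [smul_add, Finset.smul_sum, ← add_assoc, Finset.sum_filter, ← Finset.sum_add_distrib]
    congr 1
    refine Finset.sum_congr rfl (fun s _ => ?_)
    rcases Int.emod_two_eq_zero_or_one (c s) with e | e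
    · rw [if_neg (by omega), zero_add, smul_smul]
      congr 1; omega
    · rw [if_pos e, smul_smul]
      have e2 : c s = 1 + 2 * (c s / 2) := by omega
      calc c s • s = (1 + 2 * (c s / 2)) • s := by rw [← e2]
        _ = s + (2 * (c s / 2)) • s := by rw [add_zsmul, one_zsmul]

/-- A subgroup of finite rank with free components is finitely generated. -/
theorem fg_of_rank (L : Submodule ℤ Λ) (r : ℕ)
    (hr : ∀ (n : ℕ) (v : Fin n → L), LinearIndependent ℤ v → n ≤ r)
    (hfree : ∀ x ∈ L, x ≠ 0 → Module.Free ℤ (component x)) : L.FG := by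
  obtain ⟨R, hR⟩ := exists_mod_two L r hr
  exact fg_of_components' L hfree R hR

variable {X : Type*} {D : Dist Λ X} {G : Type*} [Group G] [MulAction G X]

/-- The embedding of a commutative subgroup, based at a point of its axis. -/
theorem exists_hom_axis (hT : IsTree D) (hG : FreeAct D G) (A : Subgroup G)
    (hA : ∀ a ∈ A, ∀ b ∈ A, a * b = b * a) {a : G} (haA : a ∈ A) (ha : a ≠ 1) {p : X}
    (hp : p ∈ axis D a) :
    ∃ τ : A →* Multiplicative Λ, Function.Injective τ ∧
      (∀ b : A, (τ b).toAdd ∈ lengths D G p) ∧ ∀ b : A, |(τ b).toAdd| = tl D p (b : G) := by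
  classical
  have hY := axis_linear hT hG ha
  have hq : a • p ∈ axis D a := smul_mem_axis_self hG hp
  have hpq : a • p ≠ p := hG.ne ha p
  have hpres : ∀ b ∈ A, ∀ y ∈ axis D a, b • y ∈ axis D a := by
    intro b hb y hy
    have := smul_mem_axis hG b hy
    have e : b * a * b⁻¹ = a := by rw [hA b hb a haA]; group
    rwa [e] at this
  have hpB : p ∈ hullPts D G p := by
    have := orbit_mem_hull (D := D) p (1 : G)
    rwa [one_smul] at this
  refine ⟨{ toFun := fun b => Multiplicative.ofAdd (coord D p (a • p) ((b : G) • p))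
            map_one' := ?_
            map_mul' := ?_ }, ?_, ?_, ?_⟩
  · rw [Subgroup.coe_one, one_smul, coord_self]; rfl
  · intro b c
    rw [Subgroup.coe_mul, mul_smul,
      coord_smul hT hG hY hp hq hpq (hpres b b.2) (hpres c c.2 p hp), add_comm]
    rfl
  · rw [injective_iff_map_eq_one]
    intro b hb
    have hb' : coord D p (a • p) ((b : G) • p) = 0 := hb
    apply Subtype.ext
    exact coord_smul_inj hT hG hY hp hq hpq (hpres b b.2) hb'
  · intro b
    have h := coord_mem (D := D) (q := a • p) (lengths D G p).toAddSubgroup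
      (dist_mem_lengths (D := D) hpB (smul_mem_hull hG (b : G) hpB))
    exact h
  · intro b
    have h1 : |coord D p (a • p) ((b : G) • p)| = D.d p ((b : G) • p) := abs_coord p _ _
    have h2 : coord D p (a • p) (((b : G) * (b : G)) • p) =
        coord D p (a • p) ((b : G) • p) + coord D p (a • p) ((b : G) • p) := by
      rw [mul_smul, coord_smul hT hG hY hp hq hpq (hpres b b.2) (hpres b b.2 p hp)]
    have h3 : |coord D p (a • p) (((b : G) * (b : G)) • p)| = D.d p ((b : G) • (b : G) • p) := by
      rw [abs_coord, mul_smul]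
    change |coord D p (a • p) ((b : G) • p)| = tl D p (b : G)
    unfold tl
    rw [← h3, ← h1, h2]
    generalize coord D p (a • p) ((b : G) • p) = u
    grind

open Idx in
/-- All components except possibly the top one are free. -/
theorem comp_free
    (hfree : ∀ x y : Λ, x ≠ 0 → (∀ n : ℕ, n • |x| ≤ |y|) → Module.Free ℤ (component x))
    (hT : IsTree D) (hG : FreeAct D G) (S : Finset G)
    (hS : Subgroup.closure (S : Set G) = ⊤) [Nonempty X] (A : Subgroup G)
    (hA : ∀ a ∈ A, ∀ b ∈ A, a * b = b * a) :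
    ∃ n : ℕ, n ≤ 3 * S.card - 2 ∧ Nonempty (A ≃* Multiplicative (Fin n → ℤ)) := by
  classical
  by_cases h1 : ∃ a ∈ A, a ≠ 1
  · obtain ⟨a, haA, ha⟩ := h1
    obtain ⟨p, hp⟩ := axis_nonempty hT hG ha
    obtain ⟨B, F0, hF0, hδ⟩ := two_dir hT hG ha hp
    obtain ⟨τ, hτ, hL, habs⟩ := exists_hom_axis hT hG A hA haA ha hp
    -- a bound for the displacements of the generators
    obtain ⟨l, hl, hle⟩ : ∃ l : Λ, 0 < l ∧ ∀ s ∈ S, D.d p (s • p) ≤ l := by
      refine ⟨D.d p (a • p) + ∑ s ∈ S, D.d p (s • p), ?_, ?_⟩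
      · have h2 : 0 < D.d p (a • p) := by
          refine lt_of_le_of_ne (D.nonneg _ _) ?_
          intro h
          exact hG.ne ha p (D.eq_of_d _ _ h.symm).symm
        have h3 : 0 ≤ ∑ s ∈ S, D.d p (s • p) := Finset.sum_nonneg fun s _ => D.nonneg _ _
        exact add_pos_of_pos_of_nonneg h2 h3
      · intro s hs
        have h4 := Finset.single_le_sum (f := fun s : G => D.d p (s • p))
          (fun s _ => D.nonneg _ _) hs
        exact h4.trans (le_add_of_nonneg_left (D.nonneg _ _))
    obtain ⟨R, hRA, hR⟩ := top_quotient hT hG S hS p hl hle A hA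
    -- the image of `A`
    let N : Submodule ℤ Λ :=
      { carrier := {t | ∃ b : A, (τ b).toAdd = t}
        add_mem' := by
          rintro s t ⟨b, hb⟩ ⟨c, hc⟩
          exact ⟨b * c, by rw [map_mul, toAdd_mul, hb, hc]⟩
        zero_mem' := ⟨1, by rw [map_one]; rfl⟩
        smul_mem' := by
          rintro c t ⟨b, hb⟩
          exact ⟨b ^ c, by rw [map_zpow, toAdd_zpow, hb]⟩ }
    have hNL : N ≤ lengths D G p := by
      rintro t ⟨b, rfl⟩
      exact hL b
    have hrank : ∀ (n : ℕ) (v : Fin n → (lengths D G p ⊓ infC l : Submodule ℤ Λ)),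
        LinearIndependent ℤ v → n ≤ 3 * S.card := by
      intro n v hv
      have h5 : LinearIndependent ℤ (fun i => (⟨(v i : Λ), (v i).2.1⟩ : lengths D G p)) := by
        have h6 := hv.map' (Submodule.inclusion (inf_le_left : lengths D G p ⊓ infC l ≤
          lengths D G p)) (LinearMap.ker_eq_bot.2 (Submodule.inclusion_injective _))
        exact h6
      have := lengths_rank hT hG S hS p 2 B F0 hF0 hδ n _ h5
      omega
    have hinf : (lengths D G p ⊓ infC l).FG :=
      fg_of_rank _ _ hrank fun x hx hx0 => hfree x l hx0 hx.2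
    have hinfN : (N ⊓ infC l).FG := by
      have : IsNoetherian ℤ (lengths D G p ⊓ infC l : Submodule ℤ Λ) :=
        isNoetherian_of_fg_of_noetherian _ hinf
      exact (isNoetherian_submodule.1 this) _ (inf_le_inf_right _ hNL)
    have hNfg : N.FG := by
      have h7 : N = Submodule.span ℤ ((R.attach.image (fun r => (τ ⟨r.1, hRA r.1 r.2⟩).toAdd) :
          Finset Λ) : Set Λ) ⊔ (N ⊓ infC l) := by
        apply le_antisymm
        · rintro t ⟨b, rfl⟩
          obtain ⟨r, hr, e, he, hbe, hinfe⟩ := hR b b.2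
          have hrA : r ∈ A := by
            have : Subgroup.closure (R : Set G) ≤ A := (Subgroup.closure_le A).2 hRA
            exact this hr
          have h8 : b = ⟨r, hrA⟩ * ⟨e, he⟩ := Subtype.ext hbe
          rw [h8, map_mul, toAdd_mul]
          refine Submodule.add_mem_sup ?_ ?_
          · -- by induction on `r`
            have h9 : ∀ (r : G) (_ : r ∈ Subgroup.closure (R : Set G)), ∃ h : r ∈ A,
                (τ ⟨r, h⟩).toAdd ∈ Submodule.span ℤ ((R.attach.image
                  (fun r => (τ ⟨r.1, hRA r.1 r.2⟩).toAdd) : Finset Λ) : Set Λ) := by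
              intro r hr
              induction hr using Subgroup.closure_induction with
              | mem s hs =>
                refine ⟨hRA s hs, Submodule.subset_span ?_⟩
                rw [Finset.mem_coe, Finset.mem_image]
                exact ⟨⟨s, hs⟩, Finset.mem_attach _ _, rfl⟩
              | one =>
                refine ⟨A.one_mem, ?_⟩
                have : (⟨1, A.one_mem⟩ : A) = 1 := rfl
                rw [this, map_one]
                exact Submodule.zero_mem _
              | mul u v _ _ hu hv =>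
                obtain ⟨u1, u2⟩ := hu
                obtain ⟨v1, v2⟩ := hv
                refine ⟨A.mul_mem u1 v1, ?_⟩
                have : (⟨u * v, A.mul_mem u1 v1⟩ : A) = ⟨u, u1⟩ * ⟨v, v1⟩ := rfl
                rw [this, map_mul, toAdd_mul]
                exact Submodule.add_mem _ u2 v2
              | inv u _ hu =>
                obtain ⟨u1, u2⟩ := hu
                refine ⟨A.inv_mem u1, ?_⟩
                have : (⟨u⁻¹, A.inv_mem u1⟩ : A) = ⟨u, u1⟩⁻¹ := rfl
                rw [this, map_inv, toAdd_inv]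
                exact Submodule.neg_mem _ u2
            exact (h9 r hr).2
          · refine ⟨⟨⟨e, he⟩, rfl⟩, ?_⟩
            intro n
            rw [habs, abs_of_pos hl]
            exact hinfe n
        · refine sup_le (Submodule.span_le.2 ?_) inf_le_left
          intro t ht
          rw [Finset.mem_coe, Finset.mem_image] at ht
          obtain ⟨r, -, rfl⟩ := ht
          exact ⟨_, rfl⟩
      rw [h7]
      exact (Submodule.fg_span (Finset.finite_toSet _)).sup hinfN
    have hfin : Module.finrank ℤ N ≤ 3 * S.card - 2 := by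
      have : Module.Finite ℤ N := Module.Finite.iff_fg.2 hNfg
      let b := Module.finBasis ℤ N
      have h10 : LinearIndependent ℤ
          (fun i => (⟨(b i : Λ), hNL (b i).2⟩ : lengths D G p)) := by
        have h6 := b.linearIndependent.map' (Submodule.inclusion hNL)
          (LinearMap.ker_eq_bot.2 (Submodule.inclusion_injective _))
        exact h6
      have := lengths_rank hT hG S hS p 2 B F0 hF0 hδ _ _ h10
      omega
    obtain ⟨m, hm, hiso⟩ := abelian_free hNfg hfin τ hτ (fun b => ⟨b, rfl⟩)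
    exact ⟨m, hm, hiso⟩
  · push Not at h1
    refine ⟨0, Nat.zero_le _, ⟨?_⟩⟩
    have hsub : Subsingleton A := ⟨fun x y => Subtype.ext ((h1 x x.2).trans (h1 y y.2).symm)⟩
    exact { toFun := fun _ => 1
            invFun := fun _ => 1
            left_inv := fun _ => Subsingleton.elim _ _
            right_inv := fun _ => Subsingleton.elim _ _
            map_mul' := fun _ _ => rfl }

end LTree
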