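import Pool.Agent.Work.MP_0c526b_al.Top

/-!
# The signed length of a segment on the translates of an axis
-/

namespace LTree

open MeasureTheory

/-- Pairwise disjoint intervals inside `(0, d]` have total length at most `d`. -/
lemma sum_intervals {ι : Type*} (s : Finset ι) (α β : ι → ℝ) {d : ℝ}
    (h0 : ∀ i ∈ s, 0 ≤ α i) (h1 : ∀ i ∈ s, α i ≤ β i) (h2 : ∀ i ∈ s, β i ≤ d)
    (hd : ∀ i ∈ s, ∀ j ∈ s, i ≠ j → Disjoint (Set.Ioc (α i) (β i)) (Set.Ioc (α j) (β j)))
    (hdn : 0 ≤ d) : ∑ i ∈ s, (β i - α i) ≤ d := by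
  have h3 : volume (⋃ i ∈ s, Set.Ioc (α i) (β i)) = ∑ i ∈ s, volume (Set.Ioc (α i) (β i)) := by
    apply measure_biUnion_finset
    · intro i hi j hj hij
      exact hd i hi j hj hij
    · intro i _; exact measurableSet_Ioc
  have h4 : volume (⋃ i ∈ s, Set.Ioc (α i) (β i)) ≤ volume (Set.Ioc 0 d) := by
    apply measure_mono
    intro x hx
    simp only [Set.mem_iUnion] at hx
    obtain ⟨i, hi, hx⟩ := hx
    exact ⟨lt_of_le_of_lt (h0 i hi) hx.1, hx.2.trans (h2 i hi)⟩
  rw [h3] at h4
  simp only [Real.volume_Ioc] at h4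
  rw [← ENNReal.ofReal_sum_of_nonneg (fun i hi => sub_nonneg.2 (h1 i hi)), sub_zero] at h4
  exact (ENNReal.ofReal_le_ofReal_iff hdn).1 h4

variable {Λ : Type*} [AddCommGroup Λ] [LinearOrder Λ] [IsOrderedAddMonoid Λ] {X : Type*}

variable {D : Dist Λ X} {G : Type*} [Group G] [MulAction G X]

/-- All the data: an axis with a base point on it, and a positive element `l`. -/
structure Setup (D : Dist Λ X) (G : Type*) [Group G] [MulAction G X] (a : G) (p : X) (l : Λ) :
    Prop where
  hT : IsTree D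
  hG : FreeAct D G
  ha : a ≠ 1
  hp : p ∈ axis D a
  hl : 0 < l
  dense : ∀ ε : ℝ, 0 < ε → ∃ m : G, m ≠ 1 ∧ a * m = m * a ∧ D.d p (m • p) ∈ hullC l ∧
    theta l (D.d p (m • p)) < ε

variable {a : G} {p : X} {l : Λ} (h : Setup D G a p l)

include h

lemma Setup.gated : Gated D (axis D a) := axis_gated h.hT h.hG h.ha

/-- The signed length of `[x, y]` on the translate of the axis by `g`. -/
noncomputable def Setup.f (x y : X) (g : G) : ℝ :=
  theta l (coord D p (a • p) (pr h.gated (g⁻¹ • y)) - coord D p (a • p) (pr h.gated (g⁻¹ • x)))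

lemma Setup.coord_dist {u v : X} (hu : u ∈ axis D a) (hv : v ∈ axis D a) :
    |coord D p (a • p) u - coord D p (a • p) v| = D.d u v :=
  LTree.coord_dist h.hT (axis_linear h.hT h.hG h.ha) h.hp (smul_mem_axis_self h.hG h.hp)
    (h.hG.ne h.ha p) hu hv

lemma Setup.coord_smul {m : G} (hm : m ∈ stab G (axis D a)) {u : X} (hu : u ∈ axis D a) :
    coord D p (a • p) (m • u) = coord D p (a • p) u + coord D p (a • p) (m • p) :=
  LTree.coord_smul h.hT h.hG (axis_linear h.hT h.hG h.ha) h.hp (smul_mem_axis_self h.hG h.hp)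
    (h.hG.ne h.ha p) (fun y hy => (hm y).2 hy) hu

lemma Setup.f_mul (x y : X) (g : G) {m : G} (hm : m ∈ stab G (axis D a)) :
    h.f x y (g * m) = h.f x y g := by
  have hm' := (stab G _).inv_mem hm
  unfold Setup.f
  rw [mul_inv_rev, mul_smul, mul_smul, pr_smul h.hG h.gated hm', pr_smul h.hG h.gated hm',
    h.coord_smul hm' (pr_mem _ _), h.coord_smul hm' (pr_mem _ _)]
  congr 1; abel

/-- The same as a function of the translate. -/
noncomputable def Setup.F (x y : X) (c : G ⧸ stab G (axis D a)) : ℝ := h.f x y c.out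

lemma Setup.F_mk (x y : X) (g : G) : h.F x y (g : G ⧸ stab G (axis D a)) = h.f x y g := by
  obtain ⟨m, hm⟩ := QuotientGroup.mk_out_eq_mul (stab G (axis D a)) g
  unfold Setup.F
  rw [hm]
  exact h.f_mul x y g m.2

lemma Setup.F_smul (x y : X) (w : G) (c : G ⧸ stab G (axis D a)) :
    h.F (w • x) (w • y) c = h.F x y (w⁻¹ • c) := by
  induction c using QuotientGroup.induction_on with
  | H g =>
    have : w⁻¹ • (g : G ⧸ stab G (axis D a)) = ((w⁻¹ * g : G) : G ⧸ stab G (axis D a)) := rfl
    rw [this, h.F_mk, h.F_mk]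
    unfold Setup.f
    rw [mul_inv_rev, inv_inv, mul_smul, mul_smul]

/-- The difference of the coordinates of the gates. -/
lemma Setup.diff_mem {x y : X} (hxy : D.d x y ∈ hullC l) (g : G) :
    coord D p (a • p) (pr h.gated (g⁻¹ • y)) - coord D p (a • p) (pr h.gated (g⁻¹ • x)) ∈
      hullC l := by
  apply hullC_convex hxy
  rw [h.coord_dist (pr_mem _ _) (pr_mem _ _), abs_of_nonneg (D.nonneg _ _)]
  have := pr_dist_le h.hT h.gated (g⁻¹ • y) (g⁻¹ • x)
  rw [h.hG.iso] at this
  rw [D.symm x y]; exact this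

lemma Setup.F_add {x y z : X} (hxy : D.d x y ∈ hullC l) (hyz : D.d y z ∈ hullC l)
    (c : G ⧸ stab G (axis D a)) : h.F x z c = h.F x y c + h.F y z c := by
  induction c using QuotientGroup.induction_on with
  | H g =>
    rw [h.F_mk, h.F_mk, h.F_mk]
    unfold Setup.f
    rw [← theta_add h.hl (h.diff_mem hxy g) (h.diff_mem hyz g)]
    congr 1; abel

lemma Setup.abs_f {x y : X} (hxy : D.d x y ∈ hullC l) (g : G) :
    |h.f x y g| = theta l (D.d (g • pr h.gated (g⁻¹ • x)) (g • pr h.gated (g⁻¹ • y))) := by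
  unfold Setup.f
  rw [← theta_abs h.hl (h.diff_mem hxy g), h.coord_dist (pr_mem _ _) (pr_mem _ _), h.hG.iso,
    D.symm]

/-- The entry and the exit point of `[x, y]` on the translate of the axis by `g`. -/
lemma Setup.path {x y : X} {g : G}
    (hne : g • pr h.gated (g⁻¹ • x) ≠ g • pr h.gated (g⁻¹ • y)) :
    Btw D x (g • pr h.gated (g⁻¹ • x)) y ∧ Btw D x (g • pr h.gated (g⁻¹ • y)) y ∧
      D.d x (g • pr h.gated (g⁻¹ • x)) +
        D.d (g • pr h.gated (g⁻¹ • x)) (g • pr h.gated (g⁻¹ • y)) =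
        D.d x (g • pr h.gated (g⁻¹ • y)) := by
  have hne' : pr h.gated (g⁻¹ • x) ≠ pr h.gated (g⁻¹ • y) := fun e => hne (by rw [e])
  obtain ⟨h1, h2, h3⟩ := pr_path h.hT h.gated hne'
  have i1 := h.hG.iso g (g⁻¹ • x) (pr h.gated (g⁻¹ • x))
  have i2 := h.hG.iso g (g⁻¹ • x) (pr h.gated (g⁻¹ • y))
  have i3 := h.hG.iso g (pr h.gated (g⁻¹ • x)) (pr h.gated (g⁻¹ • y))
  rw [smul_inv_smul] at i1 i2
  have b1 := h.hG.btw g h1
  have b2 := h.hG.btw g h2
  rw [smul_inv_smul, smul_inv_smul] at b1 b2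
  exact ⟨b1, b2, by rw [i1, i2, i3, h3]⟩

/-- Two translates with an overlap which is not infinitesimal coincide. -/
lemma Setup.overlap' {g g' : G} {u v : X} (hu : g⁻¹ • u ∈ axis D a) (hv : g⁻¹ • v ∈ axis D a)
    (hu' : g'⁻¹ • u ∈ axis D a) (hv' : g'⁻¹ • v ∈ axis D a) (huv : D.d u v ∈ hullC l)
    (hpos : 0 < theta l (D.d u v)) : (g : G ⧸ stab G (axis D a)) = g' := by
  obtain ⟨m, hm1, hm, hml, hlt⟩ := h.dense _ hpos
  rw [QuotientGroup.eq]
  have e1 : (g⁻¹ * g')⁻¹ • (g⁻¹ • u) = g'⁻¹ • u := by rw [smul_smul]; group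
  have e2 : (g⁻¹ * g')⁻¹ • (g⁻¹ • v) = g'⁻¹ • v := by rw [smul_smul]; group
  refine overlap h.hT h.hG h.ha h.hp hm1 hm hu hv (by rw [e1]; exact hu') (by rw [e2]; exact hv') ?_
  rw [h.hG.iso]
  by_contra hc
  push Not at hc
  exact absurd (theta_mono h.hl huv hml hc.le) (not_le.2 hlt)

lemma Setup.sum_le {x y : X} (hxy : D.d x y ∈ hullC l)
    (s : Finset (G ⧸ stab G (axis D a))) :
    ∑ c ∈ s, |h.F x y c| ≤ theta l (D.d x y) := by
  classical
  let A : G ⧸ stab G (axis D a) → X := fun c => c.out • pr h.gated (c.out⁻¹ • x)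
  let B : G ⧸ stab G (axis D a) → X := fun c => c.out • pr h.gated (c.out⁻¹ • y)
  let s' := s.filter (fun c => A c ≠ B c)
  have hs : ∑ c ∈ s, |h.F x y c| = ∑ c ∈ s', |h.F x y c| := by
    rw [Finset.sum_filter]
    refine Finset.sum_congr rfl (fun c _ => ?_)
    split
    · rfl
    · rename_i hc
      push Not at hc
      have : |h.F x y c| = theta l (D.d (A c) (B c)) := h.abs_f hxy _
      rw [this, hc, D.d_self, theta_zero h.hl]
  have hpath : ∀ c ∈ s', Btw D x (A c) y ∧ Btw D x (B c) y ∧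
      D.d x (A c) + D.d (A c) (B c) = D.d x (B c) := fun c hc =>
    h.path (Finset.mem_filter.1 hc).2
  have hAl : ∀ c ∈ s', D.d x (A c) ∈ hullC l ∧ D.d x (A c) ≤ D.d x y := by
    intro c hc
    have h1 := (hpath c hc).1
    have n1 := D.nonneg x (A c)
    have n2 := D.nonneg (A c) y
    have n3 := D.nonneg x y
    have h2 : D.d x (A c) ≤ D.d x y := by unfold Btw at h1; grind
    exact ⟨hullC_convex hxy (by rw [abs_of_nonneg n1, abs_of_nonneg n3]; exact h2), h2⟩
  have hBl : ∀ c ∈ s', D.d x (B c) ∈ hullC l ∧ D.d x (B c) ≤ D.d x y := by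
    intro c hc
    have h1 := (hpath c hc).2.1
    have n1 := D.nonneg x (B c)
    have n2 := D.nonneg (B c) y
    have n3 := D.nonneg x y
    have h2 : D.d x (B c) ≤ D.d x y := by unfold Btw at h1; grind
    exact ⟨hullC_convex hxy (by rw [abs_of_nonneg n1, abs_of_nonneg n3]; exact h2), h2⟩
  have hval : ∀ c ∈ s', |h.F x y c| = theta l (D.d x (B c)) - theta l (D.d x (A c)) := by
    intro c hc
    have h1 : |h.F x y c| = theta l (D.d (A c) (B c)) := h.abs_f hxy _
    rw [h1, ← theta_sub h.hl (hBl c hc).1 (hAl c hc).1, ← (hpath c hc).2.2]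
    congr 1; abel
  rw [hs, Finset.sum_congr rfl hval]
  apply sum_intervals s' (fun c => theta l (D.d x (A c))) (fun c => theta l (D.d x (B c)))
  · intro c hc; exact theta_nonneg h.hl (hAl c hc).1 (D.nonneg _ _)
  · intro c hc
    apply theta_mono h.hl (hAl c hc).1 (hBl c hc).1
    have h1 := (hpath c hc).2.2
    have n := D.nonneg (A c) (B c)
    grind
  · intro c hc; exact theta_mono h.hl (hBl c hc).1 hxy (hBl c hc).2
  · intro c hc c' hc' hne
    rw [Set.disjoint_left]
    rintro r ⟨r1, r2⟩ ⟨r3, r4⟩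
    apply hne
    -- the overlap
    let U := max (D.d x (A c)) (D.d x (A c'))
    let V := min (D.d x (B c)) (D.d x (B c'))
    have hU : U ∈ hullC l := by
      rcases max_choice (D.d x (A c)) (D.d x (A c')) with e | e
      · change max _ _ ∈ _; rw [e]; exact (hAl c hc).1
      · change max _ _ ∈ _; rw [e]; exact (hAl c' hc').1
    have hV : V ∈ hullC l := by
      rcases min_choice (D.d x (B c)) (D.d x (B c')) with e | e
      · change min _ _ ∈ _; rw [e]; exact (hBl c hc).1
      · change min _ _ ∈ _; rw [e]; exact (hBl c' hc').1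
    have hUV : theta l U < theta l V := by
      have a1 : theta l U < r := by
        rcases max_choice (D.d x (A c)) (D.d x (A c')) with e | e
        · change theta l (max _ _) < _; rw [e]; exact r1
        · change theta l (max _ _) < _; rw [e]; exact r3
      have a2 : r ≤ theta l V := by
        rcases min_choice (D.d x (B c)) (D.d x (B c')) with e | e
        · change _ ≤ theta l (min _ _); rw [e]; exact r2
        · change _ ≤ theta l (min _ _); rw [e]; exact r4
      linarith
    have hlt : U < V := by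
      by_contra hc'
      push Not at hc'
      exact absurd (theta_mono h.hl hV hU hc') (not_le.2 hUV)
    have hU0 : 0 ≤ U := le_max_of_le_left (D.nonneg _ _)
    have hVd : V ≤ D.d x y := (min_le_left _ _).trans (hBl c hc).2
    obtain ⟨u, hu, eu⟩ := exists_btw h.hT hU0 (hlt.le.trans hVd)
    obtain ⟨v, hv, ev⟩ := exists_btw h.hT (hU0.trans hlt.le) hVd
    have euv : D.d u v = V - U := by
      rw [btw_dist h.hT hu hv, eu, ev]
      grind
    -- `u` and `v` lie on both translates
    have hmem : ∀ c ∈ s', ∀ w : X, Btw D x w y → D.d x (A c) ≤ D.d x w → D.d x w ≤ D.d x (B c) →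
        c.out⁻¹ • w ∈ axis D a := by
      intro c hc w hw w1 w2
      obtain ⟨b1, b2, b3⟩ := hpath c hc
      have e1 := btw_dist h.hT b1 hw
      have e2 := btw_dist h.hT hw b2
      have b4 : Btw D (A c) w (B c) := by
        unfold Btw; grind
      have b5 := h.hG.btw c.out⁻¹ b4
      refine axis_convex h.hT h.hG h.ha ?_ ?_ b5
      · change c.out⁻¹ • c.out • _ ∈ _
        rw [inv_smul_smul]; exact pr_mem _ _
      · change c.out⁻¹ • c.out • _ ∈ _
        rw [inv_smul_smul]; exact pr_mem _ _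
    have u1 := hmem c hc u hu (by rw [eu]; exact le_max_left _ _)
      (by rw [eu]; exact hlt.le.trans (min_le_left _ _))
    have u2 := hmem c' hc' u hu (by rw [eu]; exact le_max_right _ _)
      (by rw [eu]; exact hlt.le.trans (min_le_right _ _))
    have v1 := hmem c hc v hv (by rw [ev]; exact (le_max_left _ _).trans hlt.le)
      (by rw [ev]; exact min_le_left _ _)
    have v2 := hmem c' hc' v hv (by rw [ev]; exact (le_max_right _ _).trans hlt.le)
      (by rw [ev]; exact min_le_right _ _)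
    have := h.overlap' u1 v1 u2 v2 (by rw [euv]; exact (hullC l).sub_mem hV hU)
      (by rw [euv, theta_sub h.hl hV hU]; linarith)
    rwa [QuotientGroup.out_eq', QuotientGroup.out_eq'] at this
  · exact theta_nonneg h.hl hxy (D.nonneg _ _)

lemma Setup.summable {x y : X} (hxy : D.d x y ∈ hullC l) : Summable (h.F x y) := by
  apply Summable.of_abs
  exact summable_of_sum_le (fun _ => abs_nonneg _) (h.sum_le hxy)

/-- The signed length of `[x, y]` on the translates of the axis. -/
noncomputable def Setup.φ (x y : X) : ℝ := ∑' c, h.F x y c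

lemma Setup.φ_add {x y z : X} (hxy : D.d x y ∈ hullC l) (hyz : D.d y z ∈ hullC l) :
    h.φ x z = h.φ x y + h.φ y z := by
  unfold Setup.φ
  rw [← (h.summable hxy).tsum_add (h.summable hyz)]
  exact tsum_congr (h.F_add hxy hyz)

lemma Setup.φ_smul (w : G) (x y : X) : h.φ (w • x) (w • y) = h.φ x y := by
  unfold Setup.φ
  rw [← (MulAction.toPerm (w⁻¹ : G)).tsum_eq (h.F x y)]
  exact tsum_congr (fun c => h.F_smul x y w c)

/-- On the axis itself. -/
lemma Setup.φ_axis {m : G} (hm : m ∈ stab G (axis D a)) (hml : D.d p (m • p) ∈ hullC l) :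
    h.φ p (m • p) = theta l (coord D p (a • p) (m • p)) := by
  unfold Setup.φ
  have hmp : m • p ∈ axis D a := (hm p).2 h.hp
  rw [tsum_eq_single ((1 : G) : G ⧸ stab G (axis D a))]
  · rw [h.F_mk]
    unfold Setup.f
    rw [inv_one, one_smul, one_smul, pr_self h.gated hmp, pr_self h.gated h.hp, coord_self,
      sub_zero]
  · intro c hc
    induction c using QuotientGroup.induction_on with
    | H g =>
      rw [h.F_mk]
      by_contra hne
      have h1 := h.abs_f hml g
      have h2 : 0 < |h.f p (m • p) g| := abs_pos.2 hne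
      rw [h1] at h2
      have hne' : g • pr h.gated (g⁻¹ • p) ≠ g • pr h.gated (g⁻¹ • (m • p)) := by
        intro e
        rw [e, D.d_self, theta_zero h.hl] at h2
        exact lt_irrefl _ h2
      obtain ⟨b1, b2, b3⟩ := h.path hne'
      apply hc
      have c1 := axis_convex h.hT h.hG h.ha h.hp hmp b1
      have c2 := axis_convex h.hT h.hG h.ha h.hp hmp b2
      have c3 := pr_dist_le h.hT h.gated (g⁻¹ • p) (g⁻¹ • (m • p))
      refine h.overlap' (u := g • pr h.gated (g⁻¹ • p)) (v := g • pr h.gated (g⁻¹ • (m • p)))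
        ?_ ?_ ?_ ?_ ?_ h2
      · rw [inv_smul_smul]; exact pr_mem _ _
      · rw [inv_smul_smul]; exact pr_mem _ _
      · rw [inv_one, one_smul]; exact c1
      · rw [inv_one, one_smul]; exact c2
      · rw [h.hG.iso]
        rw [h.hG.iso] at c3
        exact hullC_convex hml (by
          rw [abs_of_nonneg (D.nonneg _ _), abs_of_nonneg (D.nonneg _ _)]; exact c3)

/-- The homomorphism. -/
theorem Setup.exists_hom (x0 : X) (hall : ∀ w : G, D.d x0 (w • x0) ∈ hullC l)
    (hx0 : D.d x0 p ∈ hullC l) :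
    ∃ ψ : G →* Multiplicative ℝ, ∀ m ∈ stab G (axis D a),
      (ψ m).toAdd = theta l (coord D p (a • p) (m • p)) := by
  refine ⟨{ toFun := fun w => Multiplicative.ofAdd (h.φ x0 (w • x0))
            map_one' := ?_
            map_mul' := ?_ }, ?_⟩
  · rw [one_smul]
    have h0 : D.d x0 x0 ∈ hullC l := by rw [D.d_self]; exact (hullC l).zero_mem
    have := h.φ_add h0 h0
    have : h.φ x0 x0 = 0 := by linarith
    rw [this]; rfl
  · intro u v
    rw [mul_smul, h.φ_add (hall u) (by rw [h.hG.iso]; exact hall v), h.φ_smul]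
    rfl
  · intro m hm
    change h.φ x0 (m • x0) = _
    have e1 : D.d (m • p) (m • x0) ∈ hullC l := by
      rw [h.hG.iso, D.symm]; exact hx0
    have e2 : D.d p (m • p) ∈ hullC l := by
      apply hullC_convex ((hullC l).add_mem (hall m) ((hullC l).add_mem hx0 hx0))
      have t1 := D.tri p x0 (m • p)
      have t2 := D.tri x0 (m • x0) (m • p)
      have i := h.hG.iso m x0 p
      have s := D.symm p x0
      have n := D.nonneg p (m • p)
      grind
    have e3 : D.d p (m • x0) ∈ hullC l := by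
      apply hullC_convex ((hullC l).add_mem e2 e1)
      have t1 := D.tri p (m • p) (m • x0)
      have n1 := D.nonneg p (m • x0)
      have n2 := D.nonneg p (m • p)
      have n3 := D.nonneg (m • p) (m • x0)
      grind
    rw [h.φ_add hx0 e3, h.φ_add e2 e1, h.φ_smul, ← h.φ_axis hm e2]
    have h0 : D.d x0 x0 ∈ hullC l := by rw [D.d_self]; exact (hullC l).zero_mem
    have z0 := h.φ_add h0 h0
    have z1 := h.φ_add hx0 (by rw [D.symm]; exact hx0 : D.d p x0 ∈ hullC l)
    linarith

end LTree
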