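import Pool.Agent.Work.MP_0c526b_al.Alg

/-!
# The real valued archimedean quotient
-/

namespace LTree

variable {Λ : Type*} [AddCommGroup Λ] [LinearOrder Λ] [IsOrderedAddMonoid Λ]

/-- The real number `x / l`. -/
noncomputable def theta (l x : Λ) : ℝ :=
  sSup {r : ℝ | ∃ p : ℤ, ∃ n : ℕ, 0 < n ∧ p • l ≤ n • x ∧ r = p / n}

lemma zsmul_le_iff {l : Λ} (hl : 0 < l) {a b : ℤ} : a • l ≤ b • l ↔ a ≤ b := by
  constructor
  · intro h
    by_contra hc
    push Not at hc
    have : b • l < a • l := by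
      have h1 : 0 < (a - b) • l := by
        have : 0 < a - b := by omega
        exact zsmul_pos hl this
      rw [sub_smul] at h1
      exact sub_pos.1 h1
    exact absurd h (not_le.2 this)
  · intro h
    have h1 : 0 ≤ (b - a) • l := zsmul_nonneg hl.le (by omega)
    rw [sub_smul] at h1
    exact sub_nonneg.1 h1

section

variable {l : Λ} (hl : 0 < l) {x : Λ} (hx : x ∈ hullC l)

include hl hx

lemma theta_bounds : ∃ N : ℕ, (-(N : ℤ)) • l ≤ x ∧ x ≤ (N : ℤ) • l := by
  obtain ⟨N, hN⟩ := hx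
  rw [abs_of_pos hl] at hN
  refine ⟨N, ?_, ?_⟩
  · rw [neg_smul, natCast_zsmul]
    exact (abs_le.1 hN).1
  · rw [natCast_zsmul]
    exact (abs_le.1 hN).2

lemma theta_set_nonempty :
    {r : ℝ | ∃ p : ℤ, ∃ n : ℕ, 0 < n ∧ p • l ≤ n • x ∧ r = p / n}.Nonempty := by
  obtain ⟨N, h1, h2⟩ := theta_bounds hl hx
  exact ⟨_, -(N : ℤ), 1, one_pos, by simpa using h1, rfl⟩

lemma theta_set_bdd :
    BddAbove {r : ℝ | ∃ p : ℤ, ∃ n : ℕ, 0 < n ∧ p • l ≤ n • x ∧ r = p / n} := by
  obtain ⟨N, h1, h2⟩ := theta_bounds hl hx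
  refine ⟨N, ?_⟩
  rintro r ⟨p, n, hn, h, rfl⟩
  have h3 : n • x ≤ ((n : ℤ) * N) • l := by
    rw [mul_smul, natCast_zsmul]
    exact nsmul_le_nsmul_right h2 n
  have h4 : p ≤ (n : ℤ) * N := (zsmul_le_iff hl).1 (h.trans h3)
  rw [div_le_iff₀ (by exact_mod_cast hn)]
  have : (p : ℝ) ≤ n * N := by exact_mod_cast h4
  linarith

lemma le_theta {p : ℤ} {n : ℕ} (hn : 0 < n) (h : p • l ≤ n • x) : (p : ℝ) ≤ n * theta l x := by
  have h1 : (p : ℝ) / n ≤ theta l x := le_csSup (theta_set_bdd hl hx) ⟨p, n, hn, h, rfl⟩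
  rwa [div_le_iff₀' (by exact_mod_cast hn)] at h1

lemma theta_le {p : ℤ} {n : ℕ} (hn : 0 < n) (h : n • x ≤ p • l) : n * theta l x ≤ (p : ℝ) := by
  rw [← le_div_iff₀' (by exact_mod_cast hn)]
  apply csSup_le (theta_set_nonempty hl hx)
  rintro r ⟨p', n', hn', h', rfl⟩
  have h1 : (n * p' : ℤ) • l ≤ (n' * p : ℤ) • l := by
    calc (n * p' : ℤ) • l = n • (p' • l) := by rw [mul_smul, natCast_zsmul]
      _ ≤ n • (n' • x) := nsmul_le_nsmul_right h' n
      _ = n' • (n • x) := by rw [smul_smul, smul_smul, mul_comm]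
      _ ≤ n' • (p • l) := nsmul_le_nsmul_right h n'
      _ = (n' * p : ℤ) • l := by rw [mul_smul, natCast_zsmul]
  have h2 := (zsmul_le_iff hl).1 h1
  have hn0 : (0 : ℝ) < n := by exact_mod_cast hn
  have hn0' : (0 : ℝ) < n' := by exact_mod_cast hn'
  rw [div_le_div_iff₀ hn0' hn0]
  have : ((n * p' : ℤ) : ℝ) ≤ ((n' * p : ℤ) : ℝ) := by exact_mod_cast h2
  push_cast at this
  linarith

lemma exists_floor (n : ℕ) : ∃ p : ℤ, p • l ≤ n • x ∧ n • x ≤ (p + 1) • l := by
  obtain ⟨N, h1, h2⟩ := theta_bounds hl hx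
  have hb : ∃ b : ℤ, ∀ z : ℤ, z • l ≤ n • x → z ≤ b := by
    refine ⟨n * N, fun z hz => ?_⟩
    have h3 : n • x ≤ ((n : ℤ) * N) • l := by
      rw [mul_smul, natCast_zsmul]
      exact nsmul_le_nsmul_right h2 n
    exact (zsmul_le_iff hl).1 (hz.trans h3)
  have hi : ∃ z : ℤ, z • l ≤ n • x := by
    refine ⟨n * (-(N : ℤ)), ?_⟩
    rw [mul_smul, natCast_zsmul]
    exact nsmul_le_nsmul_right h1 n
  obtain ⟨p, hp, hmax⟩ := Int.exists_greatest_of_bdd hb hi
  refine ⟨p, hp, ?_⟩
  by_contra hc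
  push Not at hc
  have := hmax (p + 1) hc.le
  omega

end

lemma theta_add {l : Λ} (hl : 0 < l) {x y : Λ} (hx : x ∈ hullC l) (hy : y ∈ hullC l) :
    theta l (x + y) = theta l x + theta l y := by
  have hxy := (hullC l).add_mem hx hy
  have key : ∀ n : ℕ, 0 < n → |n * (theta l (x + y) - theta l x - theta l y)| ≤ 2 := by
    intro n hn
    obtain ⟨p, p1, p2⟩ := exists_floor hl hx n
    obtain ⟨q, q1, q2⟩ := exists_floor hl hy n
    have e1 := le_theta hl hx hn p1
    have e2 := theta_le hl hx hn p2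
    have e3 := le_theta hl hy hn q1
    have e4 := theta_le hl hy hn q2
    have e5 : ((p + q : ℤ) : ℝ) ≤ n * theta l (x + y) := by
      apply le_theta hl hxy hn
      rw [add_smul, smul_add]; exact add_le_add p1 q1
    have e6 : n * theta l (x + y) ≤ ((p + 1 + (q + 1) : ℤ) : ℝ) := by
      apply theta_le hl hxy hn
      rw [add_smul (p + 1), smul_add]; exact add_le_add p2 q2
    push_cast at *
    rw [abs_le]
    constructor <;> nlinarith
  by_contra hne
  have hpos : 0 < |theta l (x + y) - theta l x - theta l y| := by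
    rw [abs_pos]; intro h; apply hne; linarith
  obtain ⟨n, hn⟩ := exists_nat_gt (2 / |theta l (x + y) - theta l x - theta l y|)
  have hn0 : 0 < n := by
    rcases Nat.eq_zero_or_pos n with h | h
    · subst h
      have : 0 < 2 / |theta l (x + y) - theta l x - theta l y| := by positivity
      simp at hn; linarith
    · exact h
  have := key n hn0
  rw [abs_mul, Nat.abs_cast] at this
  rw [div_lt_iff₀ hpos] at hn
  linarith

lemma theta_nonneg {l : Λ} (hl : 0 < l) {x : Λ} (hx : x ∈ hullC l) (h : 0 ≤ x) :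
    0 ≤ theta l x := by
  have := le_theta hl hx (p := 0) (n := 1) one_pos (by simpa using h)
  simpa using this

lemma theta_zero {l : Λ} (hl : 0 < l) : theta l (0 : Λ) = 0 := by
  have := theta_add hl (hullC l).zero_mem (hullC l).zero_mem
  rw [add_zero] at this
  linarith

lemma theta_neg {l : Λ} (hl : 0 < l) {x : Λ} (hx : x ∈ hullC l) :
    theta l (-x) = - theta l x := by
  have := theta_add hl hx ((hullC l).neg_mem hx)
  rw [add_neg_cancel, theta_zero hl] at this
  linarith

lemma theta_sub {l : Λ} (hl : 0 < l) {x y : Λ} (hx : x ∈ hullC l) (hy : y ∈ hullC l) :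
    theta l (x - y) = theta l x - theta l y := by
  rw [sub_eq_add_neg, theta_add hl hx ((hullC l).neg_mem hy), theta_neg hl hy]; ring

lemma theta_mono {l : Λ} (hl : 0 < l) {x y : Λ} (hx : x ∈ hullC l) (hy : y ∈ hullC l)
    (h : x ≤ y) : theta l x ≤ theta l y := by
  have h1 := theta_nonneg hl ((hullC l).sub_mem hy hx) (sub_nonneg.2 h)
  rw [theta_sub hl hy hx] at h1
  linarith

lemma theta_self {l : Λ} (hl : 0 < l) : theta l l = 1 := by
  have h1 := le_theta hl (self_mem_hullC l) (p := 1) (n := 1) one_pos (by simp)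
  have h2 := theta_le hl (self_mem_hullC l) (p := 1) (n := 1) one_pos (by simp)
  simp at h1 h2
  linarith

lemma theta_zsmul {l : Λ} (hl : 0 < l) {x : Λ} (hx : x ∈ hullC l) (c : ℤ) :
    theta l (c • x) = c * theta l x := by
  have hn : ∀ n : ℕ, theta l (n • x) = n * theta l x := by
    intro n
    induction n with
    | zero => simp [theta_zero hl]
    | succ n ih =>
      rw [succ_nsmul, theta_add hl ((hullC l).smul_of_tower_mem n hx) hx, ih]
      push_cast; ring
  obtain ⟨n, rfl | rfl⟩ := c.eq_nat_or_neg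
  · rw [natCast_zsmul, hn]; simp
  · rw [neg_smul, natCast_zsmul, theta_neg hl ((hullC l).smul_of_tower_mem n hx), hn]
    push_cast; ring

lemma theta_abs {l : Λ} (hl : 0 < l) {x : Λ} (hx : x ∈ hullC l) :
    theta l |x| = |theta l x| := by
  rcases le_total 0 x with h | h
  · rw [abs_of_nonneg h, abs_of_nonneg (theta_nonneg hl hx h)]
  · have h1 : theta l x ≤ 0 := by
      have := theta_mono hl hx (hullC l).zero_mem h
      rwa [theta_zero hl] at this
    rw [abs_of_nonpos h, abs_of_nonpos h1, theta_neg hl hx]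

lemma mem_infC_iff {l : Λ} (hl : 0 < l) {x : Λ} (hx : x ∈ hullC l) :
    x ∈ infC l ↔ theta l x = 0 := by
  have hax : |x| ∈ hullC l := hullC_convex hx (by simp)
  constructor
  · intro h
    have h1 : ∀ n : ℕ, n * |theta l x| ≤ 1 := by
      intro n
      have h2 := h n
      rw [abs_of_pos hl] at h2
      have h3 := theta_mono hl ((hullC l).smul_of_tower_mem n hax) (self_mem_hullC l) h2
      rw [theta_self hl, ← natCast_zsmul, theta_zsmul hl hax, theta_abs hl hx] at h3
      simpa using h3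
    by_contra hne
    have hpos : 0 < |theta l x| := abs_pos.2 hne
    obtain ⟨n, hn⟩ := exists_nat_gt (1 / |theta l x|)
    rw [div_lt_iff₀ hpos] at hn
    linarith [h1 n]
  · intro h n
    by_contra hc
    push Not at hc
    rw [abs_of_pos hl] at hc
    have h1 := theta_mono hl (self_mem_hullC l) ((hullC l).smul_of_tower_mem n hax) hc.le
    rw [theta_self hl, ← natCast_zsmul, theta_zsmul hl hax, theta_abs hl hx, h] at h1
    simp at h1
    linarith

end LTree
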