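import Pool.Agent.Work.MP_0c526b_al.Line
import Pool.Agent.Work.MP_0c526b_al.Theta

/-!
# The top archimedean quotient of an abelian subgroup
-/

namespace LTree

variable {Λ : Type*} [AddCommGroup Λ] [LinearOrder Λ] [IsOrderedAddMonoid Λ] {X : Type*}

variable {D : Dist Λ X}

/-- `Y` has gates. -/
def Gated (D : Dist Λ X) (Y : Set X) : Prop := ∀ x, ∃ c ∈ Y, ∀ z ∈ Y, Btw D x c z

/-- The gate of `x`. -/
noncomputable def pr {Y : Set X} (h : Gated D Y) (x : X) : X := (h x).choose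

lemma pr_mem {Y : Set X} (h : Gated D Y) (x : X) : pr h x ∈ Y := (h x).choose_spec.1

lemma pr_btw {Y : Set X} (h : Gated D Y) (x : X) {z : X} (hz : z ∈ Y) : Btw D x (pr h x) z :=
  (h x).choose_spec.2 z hz

lemma pr_unique {Y : Set X} (h : Gated D Y) {x c : X} (hc : c ∈ Y)
    (h' : ∀ z ∈ Y, Btw D x c z) : pr h x = c := by
  have h1 := pr_btw h x hc
  have h2 := h' _ (pr_mem h x)
  have s := D.symm c (pr h x)
  have n := D.nonneg (pr h x) c
  apply D.eq_of_d
  unfold Btw at *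
  grind

lemma pr_self {Y : Set X} (h : Gated D Y) {x : X} (hx : x ∈ Y) : pr h x = x :=
  pr_unique h hx (fun _ _ => btw_left _ _)

lemma pr_path (hT : IsTree D) {Y : Set X} (h : Gated D Y) {x y : X} (hne : pr h x ≠ pr h y) :
    Btw D x (pr h x) y ∧ Btw D x (pr h y) y ∧
      D.d x (pr h x) + D.d (pr h x) (pr h y) = D.d x (pr h y) := by
  have h1 := pr_btw h x (pr_mem h y)
  have h2 := (pr_btw h y (pr_mem h x)).symm
  have h3 := lg_btw hT h1 h2 hne
  exact ⟨h3.1, h3.2, h1⟩

lemma pr_dist_le (hT : IsTree D) {Y : Set X} (h : Gated D Y) (x y : X) :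
    D.d (pr h x) (pr h y) ≤ D.d x y := by
  by_cases hne : pr h x = pr h y
  · rw [hne, D.d_self]; exact D.nonneg _ _
  · obtain ⟨h1, h2, h3⟩ := pr_path hT h hne
    have n1 := D.nonneg x (pr h x)
    have n2 := D.nonneg (pr h y) y
    unfold Btw at *
    grind

variable {G : Type*} [Group G] [MulAction G X]

lemma axis_gated (hT : IsTree D) (hG : FreeAct D G) {a : G} (ha : a ≠ 1) :
    Gated D (axis D a) := by
  intro x
  obtain ⟨c, -, -, -, hc, e, -⟩ := exists_proj hT hG ha x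
  exact ⟨c, hc, fun z hz => gate hT hG ha hc e hz⟩

/-- The stabiliser of a set. -/
def stab (G : Type*) [Group G] [MulAction G X] (Y : Set X) : Subgroup G where
  carrier := {g | ∀ y : X, g • y ∈ Y ↔ y ∈ Y}
  mul_mem' := by
    intro a b ha hb y
    rw [mul_smul, ha, hb]
  one_mem' := by intro y; rw [one_smul]
  inv_mem' := by
    intro a ha y
    rw [← ha (a⁻¹ • y), smul_inv_smul]

lemma mem_stab {Y : Set X} {g : G} : g ∈ stab G Y ↔ ∀ y : X, g • y ∈ Y ↔ y ∈ Y := Iff.rfl

lemma pr_smul (hG : FreeAct D G) {Y : Set X} (h : Gated D Y) {g : G} (hg : g ∈ stab G Y)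
    (x : X) : pr h (g • x) = g • pr h x := by
  apply pr_unique h ((hg _).2 (pr_mem h x))
  intro z hz
  have h1 : g⁻¹ • z ∈ Y := ((stab G Y).inv_mem hg z).2 hz
  have := hG.btw g (pr_btw h x h1)
  rwa [smul_inv_smul] at this

lemma axis_conj_mem (hG : FreeAct D G) {a g : G} {y : X} :
    g • y ∈ axis D (g * a * g⁻¹) ↔ y ∈ axis D a := by
  constructor
  · intro h
    have := smul_mem_axis hG g⁻¹ h
    simpa [mul_assoc] using this
  · exact fun h => smul_mem_axis hG g h

lemma comm_mem_stab (hG : FreeAct D G) {a b : G} (h : a * b = b * a) :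
    b ∈ stab G (axis D a) := by
  intro y
  have e : b * a * b⁻¹ = a := by rw [← h]; group
  have := axis_conj_mem hG (a := a) (g := b) (y := y)
  rwa [e] at this

lemma axis_inv (hG : FreeAct D G) (a : G) : axis D a⁻¹ = axis D a := by
  ext y
  have i1 := hG.iso (a * a) y (a⁻¹ • a⁻¹ • y)
  have i2 := hG.iso a y (a⁻¹ • y)
  rw [mul_smul, mul_smul] at i1
  simp only [smul_inv_smul] at i1 i2
  have s1 := D.symm (a • a • y) y
  have s2 := D.symm (a • y) y
  change D.d _ _ = D.d _ _ + D.d _ _ ↔ D.d _ _ = D.d _ _ + D.d _ _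
  rw [← i1, ← i2, s1, s2]

section

variable (hT : IsTree D) (hG : FreeAct D G) {a : G} (ha : a ≠ 1) {p : X} (hp : p ∈ axis D a)

include hT hG ha hp

/-- Elements commuting with `a` move the points of the axis in both directions. -/
lemma move {m : G} (hm : a * m = m * a) {u v : X} (hu : u ∈ axis D a) (hv : v ∈ axis D a)
    (hle : D.d p (m • p) ≤ D.d u v) :
    ∃ m' : G, (m' = m ∨ m' = m⁻¹) ∧ Btw D u (m' • u) v ∧ D.d u (m' • u) = D.d p (m • p) := by
  have hY := axis_linear hT hG ha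
  have hq : a • p ∈ axis D a := smul_mem_axis_self hG hp
  have hpq : a • p ≠ p := hG.ne ha p
  have hms := comm_mem_stab hG hm
  have hms' : m⁻¹ ∈ stab G (axis D a) := (stab G _).inv_mem hms
  have pres : ∀ y ∈ axis D a, m • y ∈ axis D a := fun y hy => (hms y).2 hy
  have pres' : ∀ y ∈ axis D a, m⁻¹ • y ∈ axis D a := fun y hy => (hms' y).2 hy
  set κ := coord D p (a • p) with hκ
  have c1 : κ (m • u) = κ u + κ (m • p) := coord_smul hT hG hY hp hq hpq pres hu
  have c2 : κ (m⁻¹ • u) = κ u - κ (m • p) := by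
    have := coord_smul hT hG hY hp hq hpq pres (pres' u hu)
    rw [smul_inv_smul] at this
    rw [hκ, this]; simp
  have cp : |κ (m • p)| = D.d p (m • p) := abs_coord _ _ _
  have d1 : |κ u - κ v| = D.d u v := coord_dist hT hY hp hq hpq hu hv
  have d2 : |κ u - κ (m • u)| = D.d u (m • u) := coord_dist hT hY hp hq hpq hu (pres u hu)
  have d3 : |κ (m • u) - κ v| = D.d (m • u) v := coord_dist hT hY hp hq hpq (pres u hu) hv
  have d4 : |κ u - κ (m⁻¹ • u)| = D.d u (m⁻¹ • u) :=
    coord_dist hT hY hp hq hpq hu (pres' u hu)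
  have d5 : |κ (m⁻¹ • u) - κ v| = D.d (m⁻¹ • u) v :=
    coord_dist hT hY hp hq hpq (pres' u hu) hv
  rw [c1] at d2 d3
  rw [c2] at d4 d5
  generalize κ (m • p) = t at *
  generalize κ u = ku at *
  generalize κ v = kv at *
  by_cases hs : (0 ≤ t ∧ ku ≤ kv) ∨ (t ≤ 0 ∧ kv ≤ ku)
  · refine ⟨m, Or.inl rfl, ?_, ?_⟩
    · unfold Btw; grind
    · grind
  · refine ⟨m⁻¹, Or.inr rfl, ?_, ?_⟩
    · unfold Btw; grind
    · grind

/-- A long overlap of two translates of an axis forces them to coincide. -/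
lemma overlap {m : G} (hm1 : m ≠ 1) (hm : a * m = m * a) {g : G} {u v : X}
    (hu : u ∈ axis D a) (hv : v ∈ axis D a) (hu' : g⁻¹ • u ∈ axis D a)
    (hv' : g⁻¹ • v ∈ axis D a) (hle : D.d p (m • p) ≤ D.d u v) : g ∈ stab G (axis D a) := by
  obtain ⟨m', hm', b1, e1⟩ := move hT hG ha hp hm hu hv hle
  obtain ⟨m'', hm'', b2, e2⟩ := move hT hG ha hp hm hu' hv' (by rw [hG.iso]; exact hle)
  have b3 : Btw D u ((g * m'' * g⁻¹) • u) v := by
    have := hG.btw g b2
    rw [smul_inv_smul, smul_inv_smul] at this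
    rw [mul_smul, mul_smul]; exact this
  have e3 : D.d u ((g * m'' * g⁻¹) • u) = D.d p (m • p) := by
    have := hG.iso g (g⁻¹ • u) (m'' • g⁻¹ • u)
    rw [smul_inv_smul] at this
    rw [mul_smul, mul_smul, this, e2]
  have h1 : m' • u = (g * m'' * g⁻¹) • u := btw_unique hT b1 b3 (by rw [e1, e3])
  have h2 : m' = g * m'' * g⁻¹ := by
    have h3 : ((g * m'' * g⁻¹)⁻¹ * m') • u = u := by
      rw [mul_smul, h1, inv_smul_smul]
    have h4 := hG.free _ _ h3
    exact (inv_mul_eq_one.1 h4).symm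
  have hax : axis D m = axis D a := axis_comm_eq hT hG hm1 ha hm.symm
  have ax' : axis D m' = axis D a := by
    rcases hm' with rfl | rfl
    · exact hax
    · rw [axis_inv hG, hax]
  have ax'' : axis D m'' = axis D a := by
    rcases hm'' with rfl | rfl
    · exact hax
    · rw [axis_inv hG, hax]
  intro y
  have := axis_conj_mem hG (a := m'') (g := g) (y := y)
  rwa [← h2, ax', ax''] at this

end

end LTree
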