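import Pool.Agent.Work.MP_0c526b_al.Line
import Pool.Agent.Work.MP_0c526b_al.Alg

/-!
# Finitely many orbits of branch points
-/

namespace LTree

variable {Λ : Type*} [AddCommGroup Λ] [LinearOrder Λ] [IsOrderedAddMonoid Λ] {X : Type*}

variable {D : Dist Λ X}

/-- `c` is the median of `x, y, z`. -/
def IsMedian (D : Dist Λ X) (x y z c : X) : Prop := Btw D x c y ∧ Btw D y c z ∧ Btw D x c z

variable {G : Type*} [Group G] [MulAction G X]

/-- The medians of the triples of points of the orbit of `x0`, i.e. the points of the orbit and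
the branch points of the subtree spanned by the orbit. -/
def hullPts (D : Dist Λ X) (G : Type*) [Group G] [MulAction G X] (x0 : X) : Set X :=
  {c | ∃ g h k : G, IsMedian D (g • x0) (h • x0) (k • x0) c}

lemma orbit_mem_hull (x0 : X) (g : G) : g • x0 ∈ hullPts D G x0 :=
  ⟨g, g, g, btw_left _ _, btw_left _ _, btw_left _ _⟩

lemma smul_mem_hull (hG : FreeAct D G) {x0 c : X} (g : G) (hc : c ∈ hullPts D G x0) :
    g • c ∈ hullPts D G x0 := by
  obtain ⟨a, b, e, h1, h2, h3⟩ := hc
  refine ⟨g * a, g * b, g * e, ?_, ?_, ?_⟩ <;> rw [mul_smul, mul_smul]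
  · exact hG.btw g h1
  · exact hG.btw g h2
  · exact hG.btw g h3

lemma exists_beyond (hT : IsTree D) {x0 m c : X} (hm : m ∈ hullPts D G x0) :
    ∃ g : G, Btw D c m (g • x0) := by
  obtain ⟨a, b, e, h1, h2, h3⟩ := hm
  by_cases h : Btw D (a • x0) m c
  · exact ⟨a, h.symm⟩
  · exact ⟨b, dir hT h1 h⟩

theorem median_mem_hull (hT : IsTree D) {x0 p q r c : X} (hp : p ∈ hullPts D G x0)
    (hq : q ∈ hullPts D G x0) (hr : r ∈ hullPts D G x0) (hc : IsMedian D p q r c) :
    c ∈ hullPts D G x0 := by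
  by_cases ep : p = c
  · rwa [← ep]
  by_cases eq : q = c
  · rwa [← eq]
  by_cases er : r = c
  · rwa [← er]
  obtain ⟨a, ha⟩ := exists_beyond (D := D) (c := c) hT hp
  obtain ⟨b, hb⟩ := exists_beyond (D := D) (c := c) hT hq
  obtain ⟨e, he⟩ := exists_beyond (D := D) (c := c) hT hr
  have key : ∀ {p q : X} {a b : G}, p ≠ c → q ≠ c → Btw D p c q → Btw D c p (a • x0) →
      Btw D c q (b • x0) → Btw D (a • x0) c (b • x0) := by
    intro p q a b hp hq h ha hb
    have h1 : Btw D (a • x0) c q := (lg_btw hT ha.symm h hp).2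
    exact (lg_btw hT h1 hb hq.symm).1
  exact ⟨a, b, e, key ep eq hc.1 ha hb, key eq er hc.2.1 hb he, key ep er hc.2.2 ha he⟩

/-- The group generated by the distances of the points of the hull. -/
def lengths (D : Dist Λ X) (G : Type*) [Group G] [MulAction G X] (x0 : X) : Submodule ℤ Λ :=
  Submodule.span ℤ {t | ∃ p ∈ hullPts D G x0, ∃ q ∈ hullPts D G x0, t = D.d p q}

lemma dist_mem_lengths {x0 p q : X} (hp : p ∈ hullPts D G x0) (hq : q ∈ hullPts D G x0) :
    D.d p q ∈ lengths D G x0 := Submodule.subset_span ⟨p, hp, q, hq, rfl⟩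

/-- Distances are additive modulo 2. -/
lemma dist_add_mod_two (hT : IsTree D) {x0 p q r : X} (hp : p ∈ hullPts D G x0)
    (hq : q ∈ hullPts D G x0) (hr : r ∈ hullPts D G x0) :
    ∃ z ∈ lengths D G x0, D.d p q + D.d q r = D.d p r + (2 : ℤ) • z := by
  obtain ⟨m, h1, h2, h3⟩ := exists_median hT p q r
  have hm := median_mem_hull (G := G) hT hp hq hr ⟨h1, h2, h3⟩
  refine ⟨D.d q m, dist_mem_lengths hq hm, ?_⟩
  have s := D.symm m q
  unfold Btw at *
  rw [two_zsmul]
  grind

theorem lengths_fg (hT : IsTree D) (hG : FreeAct D G)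
    (hfree : ∀ x : Λ, x ≠ 0 → Module.Free ℤ (component x)) (S : Finset G)
    (hS : Subgroup.closure (S : Set G) = ⊤) (x0 : X) (F : Finset X)
    (hF : ∀ c ∈ hullPts D G x0, ∃ g : G, ∃ f ∈ F, c = g • f) :
    (lengths D G x0).FG ∧ Module.finrank ℤ (lengths D G x0) ≤ S.card + F.card - 1 := by
  classical
  set B := hullPts D G x0 with hB
  set L := lengths D G x0 with hL
  have hx0 : x0 ∈ B := by simpa using orbit_mem_hull (D := D) x0 (1 : G)
  let F' := F.filter (fun f => f ∈ B)
  have hF' : ∀ c ∈ B, ∃ g : G, ∃ f ∈ F', c = g • f := by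
    intro c hc
    obtain ⟨g, f, hf, e⟩ := hF c hc
    refine ⟨g, f, Finset.mem_filter.2 ⟨hf, ?_⟩, e⟩
    have := smul_mem_hull hG g⁻¹ hc
    rwa [e, inv_smul_smul] at this
  obtain ⟨g0, f0, hf0, -⟩ := hF' x0 hx0
  have hf0B : f0 ∈ B := (Finset.mem_filter.1 hf0).2
  let T : Finset Λ := S.image (fun s => D.d f0 (s • f0)) ∪ (F'.erase f0).image (fun f => D.d f0 f)
  let M : Submodule ℤ Λ := Submodule.span ℤ (T : Set Λ) ⊔ L.map ((2 : ℤ) • LinearMap.id)
  have hM : ∀ {y}, y ∈ M ↔ ∃ t ∈ Submodule.span ℤ (T : Set Λ), ∃ z ∈ L, y = t + (2 : ℤ) • z := by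
    intro y
    constructor
    · intro hy
      obtain ⟨t, ht, u, hu, rfl⟩ := Submodule.mem_sup.1 hy
      obtain ⟨z, hz, rfl⟩ := hu
      exact ⟨t, ht, z, hz, rfl⟩
    · rintro ⟨t, ht, z, hz, rfl⟩
      exact Submodule.mem_sup.2 ⟨t, ht, _, ⟨z, hz, rfl⟩, rfl⟩
  have hcomp : ∀ {p q r : X}, p ∈ B → q ∈ B → r ∈ B → D.d p q ∈ M → D.d q r ∈ M →
      D.d p r ∈ M := by
    intro p q r hp hq hr h1 h2
    obtain ⟨z, hz, e⟩ := dist_add_mod_two (G := G) hT hp hq hr
    have h3 : (2 : ℤ) • z ∈ M := hM.2 ⟨0, Submodule.zero_mem _, z, hz, by simp⟩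
    have h4 : D.d p r = D.d p q + D.d q r - (2 : ℤ) • z := by rw [e]; abel
    rw [h4]
    exact M.sub_mem (M.add_mem h1 h2) h3
  have hsf : ∀ g : G, g • f0 ∈ B := fun g => smul_mem_hull hG g hf0B
  have hw : ∀ w : G, D.d f0 (w • f0) ∈ M := by
    intro w
    have hwc : w ∈ Subgroup.closure (S : Set G) := by rw [hS]; trivial
    induction hwc using Subgroup.closure_induction with
    | mem s hs =>
      exact Submodule.mem_sup_left (Submodule.subset_span (Finset.mem_coe.2
        (Finset.mem_union_left _ (Finset.mem_image_of_mem _ hs))))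
    | one => rw [one_smul, D.d_self]; exact M.zero_mem
    | mul u v _ _ hu hv =>
      refine hcomp hf0B (hsf u) (hsf _) hu ?_
      rw [mul_smul, hG.iso]; exact hv
    | inv u _ hu =>
      have := hG.iso u f0 (u⁻¹ • f0)
      rw [smul_inv_smul] at this
      rw [← this, D.symm]; exact hu
  have hpB : ∀ p ∈ B, D.d f0 p ∈ M := by
    intro p hp
    obtain ⟨g, f, hf, rfl⟩ := hF' p hp
    refine hcomp hf0B (hsf g) hp (hw g) ?_
    rw [hG.iso]
    by_cases e : f = f0
    · rw [e, D.d_self]; exact M.zero_mem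
    · exact Submodule.mem_sup_left (Submodule.subset_span (Finset.mem_coe.2
        (Finset.mem_union_right _ (Finset.mem_image_of_mem _ (Finset.mem_erase.2 ⟨e, hf⟩)))))
  have hLM : L ≤ M := by
    rw [hL]
    refine Submodule.span_le.2 ?_
    rintro t ⟨p, hp, q, hq, rfl⟩
    refine hcomp hp hf0B hq ?_ (hpB q hq)
    rw [D.symm]; exact hpB p hp
  have hTL : ∀ t ∈ T, t ∈ L := by
    intro t ht
    rcases Finset.mem_union.1 ht with h | h
    · obtain ⟨s, hs, rfl⟩ := Finset.mem_image.1 h
      exact dist_mem_lengths hf0B (hsf s)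
    · obtain ⟨f, hf, rfl⟩ := Finset.mem_image.1 h
      exact dist_mem_lengths hf0B (Finset.mem_filter.1 (Finset.mem_erase.1 hf).2).2
  obtain ⟨h1, h2⟩ := fg_of_gen hfree L T hTL (fun y hy => hM.1 (hLM hy))
  refine ⟨h1, h2.trans ?_⟩
  have c1 : T.card ≤ S.card + (F'.erase f0).card :=
    (Finset.card_union_le _ _).trans (add_le_add Finset.card_image_le Finset.card_image_le)
  have c2 : (F'.erase f0).card = F'.card - 1 := Finset.card_erase_of_mem hf0
  have c3 : F'.card ≤ F.card := Finset.card_filter_le _ _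
  have c4 : 0 < F'.card := Finset.card_pos.2 ⟨f0, hf0⟩
  omega

/-- A commutative subgroup embeds into the group of lengths. -/
theorem exists_hom (hT : IsTree D) (hG : FreeAct D G) (x0 : X) (A : Subgroup G)
    (hA : ∀ a ∈ A, ∀ b ∈ A, a * b = b * a) :
    ∃ τ : A →* Multiplicative Λ, Function.Injective τ ∧
      ∀ a, (τ a).toAdd ∈ lengths D G x0 := by
  classical
  by_cases h1 : ∃ a ∈ A, a ≠ 1
  · obtain ⟨a, haA, ha⟩ := h1
    obtain ⟨p, p1, p2, p3, hp, -, -⟩ := exists_proj hT hG ha x0
    have hpB : p ∈ hullPts D G x0 := by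
      refine ⟨a⁻¹, 1, a, ?_, ?_, ?_⟩
      · rw [one_smul]; exact p1
      · rw [one_smul]; exact p2
      · exact p3
    have hY := axis_linear hT hG ha
    have hq : a • p ∈ axis D a := smul_mem_axis_self hG hp
    have hpq : a • p ≠ p := hG.ne ha p
    have hpres : ∀ b ∈ A, ∀ y ∈ axis D a, b • y ∈ axis D a := by
      intro b hb y hy
      have := smul_mem_axis hG b hy
      have e : b * a * b⁻¹ = a := by rw [hA b hb a haA]; group
      rwa [e] at this
    refine ⟨{ toFun := fun b => Multiplicative.ofAdd (coord D p (a • p) ((b : G) • p))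
              map_one' := ?_
              map_mul' := ?_ }, ?_, ?_⟩
    · rw [Subgroup.coe_one, one_smul, coord_self]; rfl
    · intro b c
      rw [Subgroup.coe_mul, mul_smul,
        coord_smul hT hG hY hp hq hpq (hpres b b.2) (hpres c c.2 p hp), add_comm]
      rfl
    · rw [injective_iff_map_eq_one]
      intro b hb
      have hb' : coord D p (a • p) ((b : G) • p) = 0 := hb
      apply Subtype.ext
      exact coord_smul_inj hT hG hY hp hq hpq (hpres b b.2) hb'
    · intro b
      have h := coord_mem (D := D) (q := a • p) (lengths D G x0).toAddSubgroup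
        (dist_mem_lengths (D := D) hpB (smul_mem_hull hG (b : G) hpB))
      exact h
  · push Not at h1
    refine ⟨1, ?_, ?_⟩
    · rw [injective_iff_map_eq_one]
      intro b _
      exact Subtype.ext (h1 b b.2)
    · intro a; exact Submodule.zero_mem _

theorem abelian_free {L : Submodule ℤ Λ} (hfg : L.FG) {n : ℕ} (hn : Module.finrank ℤ L ≤ n)
    {A : Type*} [Group A] (τ : A →* Multiplicative Λ) (hτ : Function.Injective τ)
    (hL : ∀ a, (τ a).toAdd ∈ L) : ∃ m ≤ n, Nonempty (A ≃* Multiplicative (Fin m → ℤ)) := by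
  classical
  have : Module.Finite ℤ L := Module.Finite.iff_fg.2 hfg
  let N : Submodule ℤ L :=
    { carrier := {t | ∃ a, (τ a).toAdd = t.1}
      add_mem' := by
        rintro s t ⟨a, ha⟩ ⟨b, hb⟩
        exact ⟨a * b, by rw [map_mul, toAdd_mul, ha, hb]; rfl⟩
      zero_mem' := ⟨1, by rw [map_one]; rfl⟩
      smul_mem' := by
        rintro c t ⟨a, ha⟩
        exact ⟨a ^ c, by rw [map_zpow, toAdd_zpow, ha]; rfl⟩ }
  let f : A →* Multiplicative N :=
    { toFun := fun a => Multiplicative.ofAdd ⟨⟨(τ a).toAdd, hL a⟩, ⟨a, rfl⟩⟩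
      map_one' := by
        apply Multiplicative.toAdd.injective
        apply Subtype.ext; apply Subtype.ext
        change (τ 1).toAdd = 0
        rw [map_one]; rfl
      map_mul' := by
        intro a b
        apply Multiplicative.toAdd.injective
        apply Subtype.ext; apply Subtype.ext
        change (τ (a * b)).toAdd = (τ a).toAdd + (τ b).toAdd
        rw [map_mul]; rfl }
  have hf : Function.Bijective f := by
    constructor
    · intro a b h
      apply hτ
      apply Multiplicative.toAdd.injective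
      exact congrArg (fun t : Multiplicative N => (t.toAdd : L).1) h
    · intro t
      obtain ⟨a, ha⟩ := t.toAdd.2
      refine ⟨a, ?_⟩
      apply Multiplicative.toAdd.injective
      apply Subtype.ext; apply Subtype.ext
      exact ha
  refine ⟨Module.finrank ℤ N, ?_, ⟨(MulEquiv.ofBijective f hf).trans
    (AddEquiv.toMultiplicative (Module.finBasis ℤ N).equivFun.toAddEquiv)⟩⟩
  exact (Submodule.finrank_le N).trans hn

end LTree
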