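import Pool.Agent.Work.MP_0c526b_al.Axis

/-!
# Coordinates on linear subsets, and the translation homomorphism
-/

namespace LTree

variable {Λ : Type*} [AddCommGroup Λ] [LinearOrder Λ] [IsOrderedAddMonoid Λ] {X : Type*}

variable {D : Dist Λ X}

open Classical in
/-- The signed distance from `p` on a linear set, positive in the direction of `q`. -/
noncomputable def coord (D : Dist Λ X) (p q x : X) : Λ :=
  if Btw D x p q then - D.d p x else D.d p x

lemma coord_self (p q : X) : coord D p q p = 0 := by
  unfold coord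
  rw [if_pos (btw_left _ _), D.d_self]; simp

lemma coord_pos {p q : X} (h : q ≠ p) : coord D p q q = D.d p q := by
  unfold coord
  rw [if_neg]
  intro hb
  unfold Btw at hb
  rw [D.d_self, D.symm q p] at hb
  have n := D.nonneg p q
  have : D.d p q = 0 := by grind
  exact h (D.eq_of_d _ _ this).symm

lemma abs_coord (p q x : X) : |coord D p q x| = D.d p x := by
  have n := D.nonneg p x
  unfold coord
  split <;> grind

lemma coord_mem {p q x : X} (Γ : AddSubgroup Λ) (h : D.d p x ∈ Γ) : coord D p q x ∈ Γ := by
  unfold coord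
  split
  · exact Γ.neg_mem h
  · exact h

theorem coord_dist (hT : IsTree D) {Y : Set X} (hY : Linear D Y) {p q : X} (hp : p ∈ Y)
    (hq : q ∈ Y) (hpq : q ≠ p) {x y : X} (hx : x ∈ Y) (hy : y ∈ Y) :
    |coord D p q x - coord D p q y| = D.d x y := by
  have npq : 0 < D.d p q :=
    lt_of_le_of_ne (D.nonneg _ _) (fun h => hpq (D.eq_of_d _ _ h.symm).symm)
  have n1 := D.nonneg p x
  have n2 := D.nonneg p y
  have n3 := D.nonneg x y
  have s1 := D.symm p x
  have s2 := D.symm p y
  have s3 := D.symm x y
  have s4 := D.symm x q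
  have s5 := D.symm y q
  have l1 := hY x hx y hy p hp
  have l2 := hY x hx y hy q hq
  unfold coord
  by_cases cx : Btw D x p q <;> by_cases cy : Btw D y p q
  · rw [if_pos cx, if_pos cy]
    unfold Btw at *
    grind
  · rw [if_pos cx, if_neg cy]
    have b : Btw D y p x := dir hT cx.symm (fun h => cy h.symm)
    unfold Btw at b
    grind
  · rw [if_neg cx, if_pos cy]
    have b : Btw D x p y := dir hT cy.symm (fun h => cx h.symm)
    unfold Btw at b
    grind
  · rw [if_neg cx, if_neg cy]
    have b : ¬ Btw D x p y := fun h => cy (dir hT h cx).symm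
    have b' : D.d y p + D.d p x ≠ D.d y x := by
      intro h; apply b; unfold Btw; grind
    unfold Btw at l1
    grind

lemma coord_inj (hT : IsTree D) {Y : Set X} (hY : Linear D Y) {p q : X} (hp : p ∈ Y)
    (hq : q ∈ Y) (hpq : q ≠ p) {x y : X} (hx : x ∈ Y) (hy : y ∈ Y)
    (e : coord D p q x = coord D p q y) : x = y := by
  apply D.eq_of_d
  rw [← coord_dist hT hY hp hq hpq hx hy, e]; simp

omit [IsOrderedAddMonoid Λ] in
lemma abs_aux [IsOrderedAddMonoid Λ] (a b : Λ) (h : |a + b| = |a - b|) : a = 0 ∨ b = 0 := by
  grind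

/-- Isometries between subsets of `Λ` are translations or reflections. -/
lemma iso_line {ι : Type*} {Y : Set ι} (u v : ι → Λ)
    (h : ∀ x ∈ Y, ∀ y ∈ Y, |u x - u y| = |v x - v y|) :
    (∃ c, ∀ x ∈ Y, u x = v x + c) ∨ (∃ c, ∀ x ∈ Y, u x = c - v x) := by
  rcases Y.eq_empty_or_nonempty with rfl | ⟨p, hp⟩
  · left; exact ⟨0, by simp⟩
  by_cases h1 : ∀ x ∈ Y, u x = v x + (u p - v p)
  · left; exact ⟨_, h1⟩
  · right
    push Not at h1
    obtain ⟨x, hx, hne⟩ := h1
    refine ⟨u p + v p, ?_⟩
    intro y hy
    have e1 := h x hx p hp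
    have e2 := h y hy p hp
    have e3 := h y hy x hx
    have e4 : u x - u p = -(v x - v p) := by
      rcases abs_eq_abs.1 e1 with a | a
      · exact absurd (by
          have : u x = u p + (u x - u p) := by abel
          rw [this, a]; abel) hne
      · exact a
    by_contra hc
    have e5 : u y - u p = v y - v p := by
      rcases abs_eq_abs.1 e2 with a | a
      · exact a
      · exact absurd (by
          have : u y = u p + (u y - u p) := by abel
          rw [this, a]; abel) hc
    have e6 : |(v y - v p) + (v x - v p)| = |(v y - v p) - (v x - v p)| := by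
      have : u y - u x = (v y - v p) + (v x - v p) := by
        have : u y - u x = (u y - u p) - (u x - u p) := by abel
        rw [this, e4, e5]; abel
      rw [← this, e3]; congr 1; abel
    rcases abs_aux _ _ e6 with a | a
    · apply hc
      rw [a] at e5
      have : u y = u p := sub_eq_zero.1 e5
      rw [this, sub_eq_zero.1 a]; abel
    · rw [a] at e4
      have e7 : u x = u p := by
        have : u x - u p = 0 := by rw [e4]; simp
        exact sub_eq_zero.1 this
      apply hne
      rw [e7, sub_eq_zero.1 a]; abel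

variable {G : Type*} [Group G] [MulAction G X]

/-- Elements preserving a linear set act on it by translations. -/
theorem coord_smul (hT : IsTree D) (hG : FreeAct D G) {Y : Set X} (hY : Linear D Y) {p q : X}
    (hp : p ∈ Y) (hq : q ∈ Y) (hpq : q ≠ p) {b : G} (hb : ∀ y ∈ Y, b • y ∈ Y) {x : X}
    (hx : x ∈ Y) : coord D p q (b • x) = coord D p q x + coord D p q (b • p) := by
  have h := iso_line (Y := Y) (fun x => coord D p q (b • x)) (fun x => coord D p q x) (by
    intro x hx y hy
    rw [coord_dist hT hY hp hq hpq (hb x hx) (hb y hy), coord_dist hT hY hp hq hpq hx hy,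
      hG.iso])
  rcases h with ⟨c, hc⟩ | ⟨c, hc⟩
  · have e1 := hc x hx
    have e2 := hc p hp
    rw [coord_self] at e2
    rw [e1, e2]; simp
  · have e1 := hc p hp
    have e2 := hc (b • p) (hb p hp)
    have e3 : coord D p q (b • b • p) = coord D p q p := by rw [e2, e1]; simp
    have e4 := coord_inj hT hY hp hq hpq (hb _ (hb p hp)) hp e3
    have b1 : b = 1 := by
      by_contra hne
      exact hG.ne2 hne p e4
    subst b1
    simp [coord_self]

lemma coord_smul_inj (hT : IsTree D) (hG : FreeAct D G) {Y : Set X} (hY : Linear D Y) {p q : X}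
    (hp : p ∈ Y) (hq : q ∈ Y) (hpq : q ≠ p) {b : G} (hb : ∀ y ∈ Y, b • y ∈ Y)
    (e : coord D p q (b • p) = 0) : b = 1 := by
  apply hG.free b p
  exact coord_inj hT hY hp hq hpq (hb p hp) hp (by rw [e, coord_self])

end LTree
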